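import Mathlib

/-!
# Arithmetic formulas with univariate leaves
-/

set_option autoImplicit false

namespace Pool.Agent.RK

open Polynomial

/-- The three operations. -/
inductive Op : Type
  | add | sub | mul
  deriving DecidableEq

/-- Arithmetic formulas over the field `K` with variables in `ι`: the leaves are univariate
polynomials in one variable, or constants; the inner nodes are operations. -/
inductive Fm (K : Type) [Field K] (ι : Type) : Type
  | leaf (i : ι) (P : K[X])
  | const (c : K)
  | node (o : Op) (a b : Fm K ι)

variable {K : Type} [Field K] {ι ι' : Type}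

/-- The polynomial computed by a formula. -/
noncomputable def Fm.poly : Fm K ι → MvPolynomial ι K
  | .leaf i P => Polynomial.aeval (MvPolynomial.X i) P
  | .const c => MvPolynomial.C c
  | .node .add a b => a.poly + b.poly
  | .node .sub a b => a.poly - b.poly
  | .node .mul a b => a.poly * b.poly

/-- The number of leaves labelled by the variable `j`. -/
def Fm.occ [DecidableEq ι] (j : ι) : Fm K ι → ℕ
  | .leaf i _ => if i = j then 1 else 0
  | .const _ => 0
  | .node _ a b => a.occ j + b.occ j

/-- The number of leaves labelled by variables. -/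
def Fm.leaves : Fm K ι → ℕ
  | .leaf _ _ => 1
  | .const _ => 0
  | .node _ a b => a.leaves + b.leaves

/-- The sum of the degrees of the leaves. -/
noncomputable def Fm.deg : Fm K ι → ℕ
  | .leaf _ P => P.natDegree
  | .const _ => 0
  | .node _ a b => a.deg + b.deg

/-- The Horton–Strahler number of a formula (constants count zero). -/
def Fm.strahler : Fm K ι → ℕ
  | .leaf _ _ => 1
  | .const _ => 0
  | .node _ a b =>
    if a.strahler = b.strahler ∧ a.strahler ≠ 0 then a.strahler + 1
    else max a.strahler b.strahler

/-- The formula in which every variable `u` is replaced by the variable `φ u`. -/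
def Fm.map (φ : ι' → ι) : Fm K ι' → Fm K ι
  | .leaf i P => .leaf (φ i) P
  | .const c => .const c
  | .node o a b => .node o (a.map φ) (b.map φ)

/-- The list of all subformulas (including the formula itself). -/
def Fm.subs : Fm K ι → List (Fm K ι)
  | .leaf i P => [.leaf i P]
  | .const c => [.const c]
  | .node o a b => .node o a b :: (a.subs ++ b.subs)

/-- Every subformula of `E` has at most `c` variables in common with the rest of `E`, that is, at
most `c` variables occur both in this subformula and outside of it. -/
def Fm.ThinC [DecidableEq ι] (c : ℕ) (E : Fm K ι) : Prop :=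
  ∀ g ∈ E.subs, Set.encard {u : ι | 0 < g.occ u ∧ g.occ u < E.occ u} ≤ c

/-- The point `(∑_l z_l ∏_{j ≠ i} (y_l - j))_i` of `ℤ^n`. -/
def gen (n t : ℕ) (y z : Fin t → ℕ) (i : Fin n) : ℤ :=
  ∑ l : Fin t, (z l : ℤ) * ∏ j ∈ Finset.univ.erase i, ((y l : ℤ) - ((j : ℕ) : ℤ))

/-- The finite set of all points `gen n t y z`, where `y_l` and `z_l` run through `{0, …, B}`. -/
def hset (n t B : ℕ) : Finset (Fin n → ℤ) :=
  (Finset.univ : Finset ((Fin t → Fin (B + 1)) × (Fin t → Fin (B + 1)))).image
    (fun p => gen n t (fun l => (p.1 l : ℕ)) (fun l => (p.2 l : ℕ)))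

end Pool.Agent.RK
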