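import Mathlib

/-!
# Functions on a slice represented by products of matrices

A function `f` of assignments `q : ι → K` is represented along the list `L` at the point `ρ` if
`f q = u ⬝ᵥ (∏_{i ∈ L} N i (q i)) v` for all `q` equal to `ρ` off `L`, with `N i (ρ i) = 1`.
-/

set_option autoImplicit false

namespace Pool.Agent.RK

open Matrix

variable {K : Type} [Field K] {ι : Type}

/-- `f` is represented along the list `L` at the point `ρ` by matrices of size at most `W`. -/
def Rep (W : ℕ) (L : List ι) (ρ : ι → K) (f : (ι → K) → K) : Prop :=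
  ∃ (T : Type) (_ : Fintype T) (_ : DecidableEq T) (N : ι → K → Matrix T T K) (u v : T → K),
    Fintype.card T ≤ W ∧ (∀ i ∈ L, N i (ρ i) = 1) ∧
    ∀ q : ι → K, (∀ i, i ∉ L → q i = ρ i) →
      f q = u ⬝ᵥ ((L.map (fun i => N i (q i))).prod *ᵥ v)

theorem Rep.mono {W W' : ℕ} {L : List ι} {ρ : ι → K} {f : (ι → K) → K} (h : Rep W L ρ f)
    (hW : W ≤ W') : Rep W' L ρ f := by
  obtain ⟨T, i1, i2, N, u, v, h1, h2, h3⟩ := h
  exact ⟨T, i1, i2, N, u, v, h1.trans hW, h2, h3⟩

theorem Rep.congr {W : ℕ} {L : List ι} {ρ : ι → K} {f g : (ι → K) → K} (h : Rep W L ρ f)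
    (hfg : ∀ q : ι → K, (∀ i, i ∉ L → q i = ρ i) → g q = f q) : Rep W L ρ g := by
  obtain ⟨T, i1, i2, N, u, v, h1, h2, h3⟩ := h
  exact ⟨T, i1, i2, N, u, v, h1, h2, fun q hq => (hfg q hq).trans (h3 q hq)⟩

theorem Rep.const {L : List ι} {ρ : ι → K} (c : K) : Rep 1 L ρ (fun _ => c) := by
  refine ⟨Unit, inferInstance, inferInstance, fun _ _ => 1, fun _ => c, fun _ => 1, by simp,
    fun _ _ => rfl, fun q _ => ?_⟩
  simp

theorem Rep.of_const {L : List ι} {ρ : ι → K} {f : (ι → K) → K}
    (h : ∀ q : ι → K, (∀ i, i ∉ L → q i = ρ i) → f q = f ρ) : Rep 1 L ρ f :=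
  (Rep.const (f ρ)).congr h

theorem prod_fromBlocks {T T' : Type} [Fintype T] [DecidableEq T] [Fintype T'] [DecidableEq T']
    (L : List ι) (A : ι → Matrix T T K) (B : ι → Matrix T' T' K) :
    (L.map (fun i => fromBlocks (A i) 0 0 (B i))).prod =
      fromBlocks (L.map A).prod 0 0 (L.map B).prod := by
  induction L with
  | nil => simp
  | cons a L ih =>
    rw [List.map_cons, List.prod_cons, ih, fromBlocks_multiply, List.map_cons, List.prod_cons,
      List.map_cons, List.prod_cons]
    simp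

theorem Rep.add {W W' : ℕ} {L : List ι} {ρ : ι → K} {f g : (ι → K) → K} (hf : Rep W L ρ f)
    (hg : Rep W' L ρ g) : Rep (W + W') L ρ (fun q => f q + g q) := by
  obtain ⟨T, i1, i2, N, u, v, h1, h2, h3⟩ := hf
  obtain ⟨T', i1', i2', N', u', v', h1', h2', h3'⟩ := hg
  refine ⟨T ⊕ T', inferInstance, inferInstance, fun i x => fromBlocks (N i x) 0 0 (N' i x),
    Sum.elim u u', Sum.elim v v', ?_, ?_, ?_⟩
  · rw [Fintype.card_sum]; omega
  · intro i hi
    dsimp only
    rw [h2 i hi, h2' i hi, fromBlocks_one]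
  · intro q hq
    dsimp only
    rw [prod_fromBlocks, h3 q hq, h3' q hq, fromBlocks_mulVec]
    simp [dotProduct, Fintype.sum_sum_type]

theorem prod_kronecker {T T' : Type} [Fintype T] [DecidableEq T] [Fintype T'] [DecidableEq T']
    (L : List ι) (A : ι → Matrix T T K) (B : ι → Matrix T' T' K) :
    (L.map (fun i => kroneckerMap (· * ·) (A i) (B i))).prod =
      kroneckerMap (· * ·) (L.map A).prod (L.map B).prod := by
  induction L with
  | nil => simp
  | cons a L ih =>
    rw [List.map_cons, List.prod_cons, ih, List.map_cons, List.prod_cons,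
      List.map_cons, List.prod_cons]
    exact (mul_kronecker_mul _ _ _ _).symm

theorem Rep.mul {W W' : ℕ} {L : List ι} {ρ : ι → K} {f g : (ι → K) → K} (hf : Rep W L ρ f)
    (hg : Rep W' L ρ g) : Rep (W * W') L ρ (fun q => f q * g q) := by
  obtain ⟨T, i1, i2, N, u, v, h1, h2, h3⟩ := hf
  obtain ⟨T', i1', i2', N', u', v', h1', h2', h3'⟩ := hg
  refine ⟨T × T', inferInstance, inferInstance,
    fun i x => kroneckerMap (· * ·) (N i x) (N' i x),
    fun p => u p.1 * u' p.2, fun p => v p.1 * v' p.2, ?_, ?_, ?_⟩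
  · rw [Fintype.card_prod]; exact Nat.mul_le_mul h1 h1'
  · intro i hi
    dsimp only
    rw [h2 i hi, h2' i hi]
    exact one_kronecker_one
  · intro q hq
    dsimp only
    rw [prod_kronecker, h3 q hq, h3' q hq]
    simp only [dotProduct, mulVec, kroneckerMap_apply, Fintype.sum_prod_type]
    rw [Finset.sum_mul_sum]
    refine Finset.sum_congr rfl (fun a _ => Finset.sum_congr rfl (fun b _ => ?_))
    have : ∀ (x y : K) (s : T → K) (t : T' → K), (x * ∑ i, s i) * (y * ∑ j, t j) =
        x * y * ∑ i, ∑ j, s i * t j := by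
      intro x y s t
      rw [← Finset.sum_mul_sum]
      ring
    rw [this]
    congr 1
    refine Finset.sum_congr rfl (fun c _ => Finset.sum_congr rfl (fun d _ => ?_))
    ring

theorem Rep.smul {W : ℕ} {L : List ι} {ρ : ι → K} {f : (ι → K) → K} (hf : Rep W L ρ f) (c : K) :
    Rep W L ρ (fun q => c * f q) := by
  have := (Rep.const (L := L) (ρ := ρ) c).mul hf
  rwa [one_mul] at this

theorem Rep.sub {W W' : ℕ} {L : List ι} {ρ : ι → K} {f g : (ι → K) → K} (hf : Rep W L ρ f)
    (hg : Rep W' L ρ g) : Rep (W + W') L ρ (fun q => f q - g q) := by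
  refine (hf.add (hg.smul (-1))).congr (fun q _ => ?_)
  ring

theorem prod_sublist {T : Type} [Fintype T] [DecidableEq T] {L' L : List ι} (h : L'.Sublist L)
    (hL : L.Nodup) (A : ι → Matrix T T K) (hA : ∀ i ∈ L, i ∉ L' → A i = 1) :
    (L.map A).prod = (L'.map A).prod := by
  induction h with
  | slnil => rfl
  | @cons L' L a h ih =>
    rw [List.nodup_cons] at hL
    rw [List.map_cons, List.prod_cons, hA a List.mem_cons_self (fun h' => hL.1 (h.subset h')),
      one_mul]
    exact ih hL.2 (fun i hi hi' => hA i (List.mem_cons_of_mem _ hi) hi')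
  | @cons_cons L' L a h ih =>
    rw [List.nodup_cons] at hL
    rw [List.map_cons, List.prod_cons, List.map_cons, List.prod_cons]
    congr 1
    refine ih hL.2 (fun i hi hi' => hA i (List.mem_cons_of_mem _ hi) ?_)
    intro h'
    rcases List.mem_cons.1 h' with rfl | h'
    · exact hL.1 hi
    · exact hi' h'

theorem Rep.sublist {W : ℕ} {L L' : List ι} {ρ : ι → K} {f : (ι → K) → K} (hf : Rep W L ρ f)
    (hL : L.Nodup) (h : L'.Sublist L) : Rep W L' ρ f := by
  obtain ⟨T, i1, i2, N, u, v, h1, h2, h3⟩ := hf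
  refine ⟨T, i1, i2, N, u, v, h1, fun i hi => h2 i (h.subset hi), fun q hq => ?_⟩
  rw [h3 q (fun i hi => hq i (fun h' => hi (h.subset h')))]
  congr 2
  refine prod_sublist h hL _ (fun i hi hi' => ?_)
  rw [hq i hi', h2 i hi]

theorem Rep.reverse {W : ℕ} {L : List ι} {ρ : ι → K} {f : (ι → K) → K} (hf : Rep W L ρ f) :
    Rep W L.reverse ρ f := by
  obtain ⟨T, i1, i2, N, u, v, h1, h2, h3⟩ := hf
  refine ⟨T, i1, i2, fun i x => (N i x)ᵀ, v, u, h1, fun i hi => ?_, fun q hq => ?_⟩
  · dsimp only
    rw [h2 i (List.mem_reverse.1 hi), transpose_one]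
  · rw [h3 q (fun i hi => hq i (fun h' => hi (List.mem_reverse.1 h')))]
    have h4 : (L.reverse.map (fun i => (N i (q i))ᵀ)).prod =
        ((L.map (fun i => N i (q i))).prod)ᵀ := by
      rw [transpose_list_prod, List.map_map, List.map_reverse]
      rfl
    rw [h4, mulVec_transpose, dotProduct_mulVec, dotProduct_comm]

/-! ### The matrix lemma -/

theorem matrix_aux {T : Type} [Fintype T] [DecidableEq T] (N : ι → K → Matrix T T K) (v : T → K)
    (ρ : ι → K) (L : List ι) (hL : L.Nodup) (hN : ∀ i ∈ L, N i (ρ i) = 1) :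
    ∀ (S : Submodule K (T → K)),
      (∃ w ∈ S, ∃ q : ι → K, w ⬝ᵥ ((L.map (fun i => N i (q i))).prod *ᵥ v) ≠ 0) →
      (∀ w ∈ S, ∀ q : ι → K, (∃ i ∈ L, q i = ρ i) →
        w ⬝ᵥ ((L.map (fun i => N i (q i))).prod *ᵥ v) = 0) →
      Module.finrank K S + L.length ≤ Fintype.card T := by
  classical
  induction L with
  | nil =>
    intro S _ _
    have := Submodule.finrank_le S
    simpa using this
  | cons a L ih =>
    intro S hex hall
    rw [List.nodup_cons] at hL
    obtain ⟨w0, hw0, q0, hq0⟩ := hex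
    -- the span of all `w * N a x`
    let S' : Submodule K (T → K) := Submodule.span K {w' | ∃ w ∈ S, ∃ x : K, w' = w ᵥ* N a x}
    have hmap : ∀ (q : ι → K) (x : K), L.map (fun i => N i (Function.update q a x i)) =
        L.map (fun i => N i (q i)) := by
      intro q x
      refine List.map_congr_left (fun i hi => ?_)
      rw [Function.update_of_ne]
      rintro rfl
      exact hL.1 hi
    have hstep : ∀ (w : T → K) (q : ι → K) (x : K),
        (w ᵥ* N a x) ⬝ᵥ ((L.map (fun i => N i (q i))).prod *ᵥ v) =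
        w ⬝ᵥ (((a :: L).map (fun i => N i (Function.update q a x i))).prod *ᵥ v) := by
      intro w q x
      rw [List.map_cons, List.prod_cons, hmap, Function.update_self, ← mulVec_mulVec,
        dotProduct_mulVec w]
    have hle : S ≤ S' := by
      intro w hw
      refine Submodule.subset_span ⟨w, hw, ρ a, ?_⟩
      rw [hN a List.mem_cons_self, vecMul_one]
    have h0 : ∀ w ∈ S, ∀ q : ι → K, w ⬝ᵥ ((L.map (fun i => N i (q i))).prod *ᵥ v) = 0 := by
      intro w hw q
      have h1 := hstep w q (ρ a)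
      rw [hN a List.mem_cons_self, vecMul_one] at h1
      rw [h1]
      exact hall w hw _ ⟨a, List.mem_cons_self, Function.update_self _ _ _⟩
    have hlin : ∀ q : ι → K, (∀ w ∈ S, ∀ x : K,
        (w ᵥ* N a x) ⬝ᵥ ((L.map (fun i => N i (q i))).prod *ᵥ v) = 0) →
        ∀ w' ∈ S', w' ⬝ᵥ ((L.map (fun i => N i (q i))).prod *ᵥ v) = 0 := by
      intro q hq w' hw'
      induction hw' using Submodule.span_induction with
      | mem w' h => obtain ⟨w, hw, x, rfl⟩ := h; exact hq w hw x
      | zero => rw [zero_dotProduct]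
      | add x y _ _ hx hy => rw [add_dotProduct, hx, hy, add_zero]
      | smul c x _ hx => rw [smul_dotProduct, hx, smul_zero]
    have hw1 : w0 ᵥ* N a (q0 a) ∈ S' := Submodule.subset_span ⟨w0, hw0, q0 a, rfl⟩
    have hne1 : (w0 ᵥ* N a (q0 a)) ⬝ᵥ ((L.map (fun i => N i (q0 i))).prod *ᵥ v) ≠ 0 := by
      rw [hstep, Function.update_eq_self]
      exact hq0
    have hlt : S < S' := by
      refine lt_of_le_of_ne hle ?_
      intro heq
      rw [← heq] at hw1
      exact hne1 (h0 _ hw1 q0)
    have h2 := Submodule.finrank_lt_finrank_of_lt hlt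
    have h3 := ih hL.2 (fun i hi => hN i (List.mem_cons_of_mem _ hi)) S'
      ⟨_, hw1, q0, hne1⟩ (by
        rintro w' hw' q ⟨i, hi, hqi⟩
        refine hlin q (fun w hw x => ?_) w' hw'
        rw [hstep]
        refine hall w hw _ ⟨i, List.mem_cons_of_mem _ hi, ?_⟩
        rw [Function.update_of_ne]
        · exact hqi
        · rintro rfl
          exact hL.1 hi)
    rw [List.length_cons]
    omega

/-- **The matrix lemma.** A function which is represented by matrices of size at most `W` along a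
list of length at least `W` and vanishes as soon as one coordinate in the list agrees with `ρ`
vanishes identically. -/
theorem Rep.eq_zero {W : ℕ} {L : List ι} {ρ : ι → K} {f : (ι → K) → K} (hf : Rep W L ρ f)
    (hL : L.Nodup) (hW : W ≤ L.length)
    (h0 : ∀ q : ι → K, (∀ i, i ∉ L → q i = ρ i) → (∃ i ∈ L, q i = ρ i) → f q = 0) :
    ∀ q : ι → K, (∀ i, i ∉ L → q i = ρ i) → f q = 0 := by
  classical
  obtain ⟨T, i1, i2, N, u, v, h1, h2, h3⟩ := hf
  intro q hq
  by_contra hne
  rw [h3 q hq] at hne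
  have hu : u ≠ 0 := by
    rintro rfl
    exact hne (zero_dotProduct _)
  have hfr : Module.finrank K (Submodule.span K {u}) = 1 := finrank_span_singleton hu
  have := matrix_aux N v ρ L hL h2 (Submodule.span K {u})
    ⟨u, Submodule.mem_span_singleton_self u, q, hne⟩ (by
      rintro w hw q' ⟨i, hi, hqi⟩
      obtain ⟨c, rfl⟩ := Submodule.mem_span_singleton.1 hw
      rw [smul_dotProduct]
      have h4 : u ⬝ᵥ ((L.map (fun i => N i (q' i))).prod *ᵥ v) = 0 := by
        -- replace `q'` off `L`
        let q'' : ι → K := fun j => if j ∈ L then q' j else ρ j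
        have h5 : L.map (fun i => N i (q' i)) = L.map (fun i => N i (q'' i)) := by
          refine List.map_congr_left (fun j hj => ?_)
          simp [q'', hj]
        have h6 : ∀ i, i ∉ L → q'' i = ρ i := fun j hj => by simp [q'', hj]
        rw [h5, ← h3 q'' h6]
        exact h0 q'' h6 ⟨i, hi, by simp [q'', hi, hqi]⟩
      rw [h4, smul_zero])
  omega

end Pool.Agent.RK
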