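import Mathlib
import Pool.Agent.Work.RK.Rep
import Pool.Agent.Work.RK.Def

/-!
# Formulas with univariate leaves
-/

set_option autoImplicit false

namespace Pool.Agent.RK

open Function Polynomial

/-- Application of an operation. -/
def Op.app {K : Type} [Field K] (o : Op) (a b : K) : K :=
  match o with
  | .add => a + b
  | .sub => a - b
  | .mul => a * b

variable {K : Type} [Field K] {ι ι' : Type}

/-- The value of a formula. -/
noncomputable def Fm.eval (q : ι → K) : Fm K ι → K
  | .leaf i P => P.eval (q i)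
  | .const c => c
  | .node o a b => o.app (a.eval q) (b.eval q)

/-- At all product gates the values of the children are nonzero at the point `ρ`. -/
def Fm.MU (ρ : ι → K) : Fm K ι → Prop
  | .leaf _ _ => True
  | .const _ => True
  | .node o a b => a.MU ρ ∧ b.MU ρ ∧ (o = .mul → a.eval ρ ≠ 0 ∧ b.eval ρ ≠ 0)

/-- There is a path from the root to a leaf such that at all product gates the values of the
children which do not belong to the path are nonzero at the point `ρ`. -/
def Fm.MUp (ρ : ι → K) : Fm K ι → Prop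
  | .leaf _ _ => True
  | .const _ => True
  | .node o a b => (a.MUp ρ ∧ b.MU ρ ∧ (o = .mul → b.eval ρ ≠ 0)) ∨
      (b.MUp ρ ∧ a.MU ρ ∧ (o = .mul → a.eval ρ ≠ 0))

theorem Fm.MU.mup {ρ : ι → K} {g : Fm K ι} (h : g.MU ρ) : g.MUp ρ := by
  induction g with
  | leaf i P => trivial
  | const c => trivial
  | node o a b iha ihb => exact Or.inl ⟨iha h.1, h.2.1, fun ho => (h.2.2 ho).2⟩

theorem Fm.eval_map (φ : ι' → ι) (q : ι → K) (g : Fm K ι') :
    (g.map φ).eval q = g.eval (fun i => q (φ i)) := by
  induction g with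
  | leaf i P => rfl
  | const c => rfl
  | node o a b iha ihb => simp only [Fm.map, Fm.eval, iha, ihb]

theorem Fm.MU_map (φ : ι' → ι) (q : ι → K) (g : Fm K ι') :
    (g.map φ).MU q ↔ g.MU (fun i => q (φ i)) := by
  induction g with
  | leaf i P => exact Iff.rfl
  | const c => exact Iff.rfl
  | node o a b iha ihb => simp only [Fm.map, Fm.MU, iha, ihb, Fm.eval_map]

theorem Fm.MUp_map (φ : ι' → ι) (q : ι → K) (g : Fm K ι') :
    (g.map φ).MUp q ↔ g.MUp (fun i => q (φ i)) := by
  induction g with
  | leaf i P => exact Iff.rfl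
  | const c => exact Iff.rfl
  | node o a b iha ihb => simp only [Fm.map, Fm.MUp, iha, ihb, Fm.eval_map, Fm.MU_map]

theorem Fm.map_occ_pos [DecidableEq ι] [DecidableEq ι'] {φ : ι' → ι} {g : Fm K ι'} {v : ι} :
    0 < (g.map φ).occ v ↔ ∃ u, φ u = v ∧ 0 < g.occ u := by
  induction g with
  | leaf i P =>
    simp only [Fm.map, Fm.occ]
    constructor
    · intro h
      refine ⟨i, ?_, by simp⟩
      by_contra hne
      simp [hne] at h
    · rintro ⟨u, hu, h⟩
      by_cases hiu : i = u
      · subst hiu; simp [hu]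
      · simp [hiu] at h
  | const c => simp [Fm.map, Fm.occ]
  | node o a b iha ihb =>
    simp only [Fm.map, Fm.occ]
    constructor
    · intro h
      by_cases ha : 0 < (a.map φ).occ v
      · obtain ⟨u, h1, h2⟩ := iha.1 ha
        exact ⟨u, h1, by omega⟩
      · obtain ⟨u, h1, h2⟩ := ihb.1 (by omega)
        exact ⟨u, h1, by omega⟩
    · rintro ⟨u, h1, h2⟩
      by_cases ha : 0 < a.occ u
      · have := iha.2 ⟨u, h1, ha⟩
        omega
      · have := ihb.2 ⟨u, h1, by omega⟩
        omega

section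

variable [DecidableEq ι]

theorem Fm.eval_congr {q q' : ι → K} (g : Fm K ι) (h : ∀ i, g.occ i ≠ 0 → q i = q' i) :
    g.eval q = g.eval q' := by
  induction g with
  | leaf i P =>
    have := h i (by simp [Fm.occ])
    simp [Fm.eval, this]
  | const c => rfl
  | node o a b iha ihb =>
    simp only [Fm.eval]
    rw [iha (fun i hi => h i (by simp only [Fm.occ]; omega)),
      ihb (fun i hi => h i (by simp only [Fm.occ]; omega))]

theorem Fm.eval_update {q : ι → K} {g : Fm K ι} {i : ι} (h : g.occ i = 0) (x : K) :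
    g.eval (update q i x) = g.eval q := by
  refine g.eval_congr (fun j hj => ?_)
  rw [update_of_ne]
  rintro rfl
  exact hj h

theorem Fm.MU_congr {q q' : ι → K} (g : Fm K ι) (h : ∀ i, g.occ i ≠ 0 → q i = q' i)
    (hg : g.MU q) : g.MU q' := by
  induction g with
  | leaf i P => trivial
  | const c => trivial
  | node o a b iha ihb =>
    have ha : ∀ i, a.occ i ≠ 0 → q i = q' i := fun i hi => h i (by simp only [Fm.occ]; omega)
    have hb : ∀ i, b.occ i ≠ 0 → q i = q' i := fun i hi => h i (by simp only [Fm.occ]; omega)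
    refine ⟨iha ha hg.1, ihb hb hg.2.1, fun ho => ?_⟩
    rw [← a.eval_congr ha, ← b.eval_congr hb]
    exact hg.2.2 ho

theorem Fm.MUp_congr {q q' : ι → K} (g : Fm K ι) (h : ∀ i, g.occ i ≠ 0 → q i = q' i)
    (hg : g.MUp q) : g.MUp q' := by
  induction g with
  | leaf i P => trivial
  | const c => trivial
  | node o a b iha ihb =>
    have ha : ∀ i, a.occ i ≠ 0 → q i = q' i := fun i hi => h i (by simp only [Fm.occ]; omega)
    have hb : ∀ i, b.occ i ≠ 0 → q i = q' i := fun i hi => h i (by simp only [Fm.occ]; omega)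
    rcases hg with ⟨h1, h2, h3⟩ | ⟨h1, h2, h3⟩
    · refine Or.inl ⟨iha ha h1, b.MU_congr hb h2, fun ho => ?_⟩
      rw [← b.eval_congr hb]
      exact h3 ho
    · refine Or.inr ⟨ihb hb h1, a.MU_congr ha h2, fun ho => ?_⟩
      rw [← a.eval_congr ha]
      exact h3 ho

theorem Fm.MU_update {q : ι → K} {g : Fm K ι} {i : ι} (h : g.occ i = 0) (x : K) (hg : g.MU q) :
    g.MU (update q i x) := by
  refine g.MU_congr (fun j hj => ?_) hg
  rw [update_of_ne]
  rintro rfl
  exact hj h

theorem Fm.MUp_update {q : ι → K} {g : Fm K ι} {i : ι} (h : g.occ i = 0) (x : K) (hg : g.MUp q) :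
    g.MUp (update q i x) := by
  refine g.MUp_congr (fun j hj => ?_) hg
  rw [update_of_ne]
  rintro rfl
  exact hj h

theorem Fm.finite_occ (g : Fm K ι) : ∃ s : Finset ι, ∀ i, i ∉ s → g.occ i = 0 := by
  induction g with
  | leaf i P =>
    refine ⟨{i}, fun j hj => ?_⟩
    simp only [Finset.mem_singleton] at hj
    simp [Fm.occ, Ne.symm hj]
  | const c => exact ⟨∅, fun _ _ => rfl⟩
  | node o a b iha ihb =>
    obtain ⟨s, hs⟩ := iha
    obtain ⟨t, ht⟩ := ihb
    refine ⟨s ∪ t, fun j hj => ?_⟩
    rw [Finset.notMem_union] at hj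
    simp [Fm.occ, hs j hj.1, ht j hj.2]

end

/-- The restriction of a formula to a curve is a polynomial. -/
theorem Fm.curve_poly (g : Fm K ι) (p : ι → K[X]) :
    ∃ P : K[X], ∀ t : K, g.eval (fun i => (p i).eval t) = P.eval t := by
  induction g with
  | leaf i P =>
    refine ⟨P.comp (p i), fun t => ?_⟩
    simp only [Fm.eval, eval_comp]
  | const c => exact ⟨C c, fun t => by simp [Fm.eval]⟩
  | node o f g ihf ihg =>
    obtain ⟨P, hP⟩ := ihf
    obtain ⟨Q, hQ⟩ := ihg
    cases o with
    | add => exact ⟨P + Q, fun t => by simp [Fm.eval, Op.app, hP, hQ]⟩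
    | sub => exact ⟨P - Q, fun t => by simp [Fm.eval, Op.app, hP, hQ]⟩
    | mul => exact ⟨P * Q, fun t => by simp [Fm.eval, Op.app, hP, hQ]⟩

theorem finite_zeros_of_poly {f : K → K} (P : K[X]) (hP : ∀ t, f t = P.eval t) {t0 : K}
    (h : f t0 ≠ 0) : {t : K | f t = 0}.Finite := by
  have hP0 : P ≠ 0 := by
    rintro rfl
    rw [hP] at h
    simp at h
  have h1 : {t : K | f t = 0} = {t | P.IsRoot t} := by
    ext t
    simp [hP, IsRoot]
  rw [h1]
  exact finite_setOfPred_isRoot hP0

/-- The restriction of a formula to a line is a polynomial. -/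
theorem Fm.line_poly (g : Fm K ι) (a b : ι → K) :
    ∃ P : K[X], ∀ t : K, g.eval (fun i => a i + t * b i) = P.eval t := by
  obtain ⟨P, hP⟩ := g.curve_poly (fun i => C (a i) + X * C (b i))
  refine ⟨P, fun t => ?_⟩
  rw [← hP]
  congr 1
  funext i
  simp only [eval_add, eval_mul, eval_C, eval_X]

theorem Fm.line_finite (g : Fm K ι) (a b : ι → K) {t0 : K}
    (h : g.eval (fun i => a i + t0 * b i) ≠ 0) :
    {t : K | g.eval (fun i => a i + t * b i) = 0}.Finite := by
  obtain ⟨P, hP⟩ := g.line_poly a b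
  exact finite_zeros_of_poly P hP h

theorem Fm.MU_line_finite (g : Fm K ι) (a b : ι → K) {t0 : K}
    (h : g.MU (fun i => a i + t0 * b i)) :
    {t : K | ¬ g.MU (fun i => a i + t * b i)}.Finite := by
  induction g with
  | leaf i P => simp [Fm.MU]
  | const c => simp [Fm.MU]
  | node o f g ihf ihg =>
    obtain ⟨h1, h2, h3⟩ := h
    by_cases ho : o = .mul
    · refine (((ihf h1).union (ihg h2)).union ((f.line_finite a b (h3 ho).1).union
        (g.line_finite a b (h3 ho).2))).subset (fun t ht => ?_)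
      simp only [Set.mem_ofPred_eq, Set.mem_union, Fm.MU] at ht ⊢
      by_contra hcon
      push Not at hcon
      exact ht ⟨hcon.1.1, hcon.1.2, fun _ => ⟨hcon.2.1, hcon.2.2⟩⟩
    · refine ((ihf h1).union (ihg h2)).subset (fun t ht => ?_)
      simp only [Set.mem_ofPred_eq, Set.mem_union, Fm.MU] at ht ⊢
      by_contra hcon
      push Not at hcon
      exact ht ⟨hcon.1, hcon.2, fun h => absurd h ho⟩

theorem Fm.MUp_line_finite (g : Fm K ι) (a b : ι → K) {t0 : K}
    (h : g.MUp (fun i => a i + t0 * b i)) :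
    {t : K | ¬ g.MUp (fun i => a i + t * b i)}.Finite := by
  have key : ∀ (o : Op) (f g : Fm K ι),
      (f.MUp (fun i => a i + t0 * b i) → {t : K | ¬ f.MUp (fun i => a i + t * b i)}.Finite) →
      (f.MUp (fun i => a i + t0 * b i) ∧ g.MU (fun i => a i + t0 * b i) ∧
        (o = .mul → g.eval (fun i => a i + t0 * b i) ≠ 0)) →
      {t : K | ¬ (f.MUp (fun i => a i + t * b i) ∧ g.MU (fun i => a i + t * b i) ∧
        (o = .mul → g.eval (fun i => a i + t * b i) ≠ 0))}.Finite := by
    rintro o f g ihf ⟨h1, h2, h3⟩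
    by_cases ho : o = .mul
    · refine (((ihf h1).union (g.MU_line_finite a b h2)).union
        (g.line_finite a b (h3 ho))).subset (fun t ht => ?_)
      simp only [Set.mem_ofPred_eq, Set.mem_union] at ht ⊢
      by_contra hcon
      push Not at hcon
      exact ht ⟨hcon.1.1, hcon.1.2, fun _ => hcon.2⟩
    · refine ((ihf h1).union (g.MU_line_finite a b h2)).subset (fun t ht => ?_)
      simp only [Set.mem_ofPred_eq, Set.mem_union] at ht ⊢
      by_contra hcon
      push Not at hcon
      exact ht ⟨hcon.1, hcon.2, fun h => absurd h ho⟩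
  induction g with
  | leaf i P => simp [Fm.MUp]
  | const c => simp [Fm.MUp]
  | node o f g ihf ihg =>
    rcases h with h | h
    · refine (key o f g ihf h).subset (fun t ht => ?_)
      simp only [Set.mem_ofPred_eq, Fm.MUp, not_or] at ht ⊢
      exact ht.1
    · refine (key o g f ihg h).subset (fun t ht => ?_)
      simp only [Set.mem_ofPred_eq, Fm.MUp, not_or] at ht ⊢
      exact ht.2

theorem update_line [DecidableEq ι] (ρ : ι → K) (h : ι) (ζ : K) : update ρ h ζ =
    fun i => update ρ h 0 i + ζ * (if i = h then 1 else 0) := by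
  funext i
  by_cases hi : i = h
  · subst hi; simp
  · simp [hi]

theorem Fm.update_finite [DecidableEq ι] (g : Fm K ι) (ρ : ι → K) (h : ι) {ζ0 : K}
    (h0 : g.eval (update ρ h ζ0) ≠ 0) : {ζ : K | g.eval (update ρ h ζ) = 0}.Finite := by
  have h1 := g.line_finite (update ρ h 0) (fun i => if i = h then 1 else 0) (t0 := ζ0)
    (by rw [← update_line]; exact h0)
  refine h1.subset (fun ζ hζ => ?_)
  simp only [Set.mem_ofPred_eq] at hζ ⊢
  rw [← update_line]
  exact hζ

/-! ### Sums, differences and products of represented functions -/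

theorem Rep.app {W : ℕ} {L : List ι} {ρ : ι → K} {f g : (ι → K) → K} (hW : 1 ≤ W)
    (hf : Rep W L ρ f) (hg : Rep W L ρ g) (o : Op) :
    Rep (2 * (W * W)) L ρ (fun q => o.app (f q) (g q)) := by
  have h1 : W + W ≤ 2 * (W * W) := by nlinarith
  cases o with
  | add => exact (hf.add hg).mono h1
  | sub => exact (hf.sub hg).mono h1
  | mul => exact (hf.mul hg).mono (by omega)

end Pool.Agent.RK
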