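import Mathlib
import Pool.Agent.Work.RK.Form

/-!
# Chains of affine maps
-/

set_option autoImplicit false

namespace Pool.Agent.RK

open Function Polynomial

variable {K : Type} [Field K] {ι : Type}

/-- `f` is, along the list `L` at the point `ρ`, a chain of affine maps, which are invertible at `ρ`
except possibly at the position `x0`. -/
def AffX (x0 : Option ι) (L : List ι) (ρ : ι → K) (f : (ι → K) → K) : Prop :=
  ∃ (a b : ι → K → K) (z : K), (∀ i ∈ L, some i ≠ x0 → a i (ρ i) ≠ 0) ∧
    ∀ q : ι → K, (∀ i, i ∉ L → q i = ρ i) →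
      f q = L.foldr (fun i y => a i (q i) * y + b i (q i)) z

/-- A chain without exceptional position. -/
def Aff (L : List ι) (ρ : ι → K) (f : (ι → K) → K) : Prop := AffX none L ρ f

/-- A chain with at most one exceptional position. -/
def Aff1 (L : List ι) (ρ : ι → K) (f : (ι → K) → K) : Prop := ∃ x0, AffX x0 L ρ f

theorem foldr_congr_aff {L : List ι} {a b a' b' : ι → K → K} {q q' : ι → K} (z : K)
    (h : ∀ i ∈ L, a i (q i) = a' i (q' i) ∧ b i (q i) = b' i (q' i)) :
    L.foldr (fun i y => a i (q i) * y + b i (q i)) z =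
      L.foldr (fun i y => a' i (q' i) * y + b' i (q' i)) z := by
  induction L with
  | nil => rfl
  | cons x L ih =>
    rw [List.foldr_cons, List.foldr_cons, ih (fun i hi => h i (List.mem_cons_of_mem _ hi)),
      (h x List.mem_cons_self).1, (h x List.mem_cons_self).2]

section

variable [DecidableEq ι]

theorem aff_normal (ρ : ι → K) (L : List ι) (hL : L.Nodup) (a b : ι → K → K)
    (ha : ∀ i ∈ L, a i (ρ i) ≠ 0) : ∀ z : K, ∃ (a' b' : ι → K → K) (z' : K),
      (∀ i ∈ L, a' i (ρ i) = 1 ∧ b' i (ρ i) = 0) ∧
      ∀ q : ι → K, L.foldr (fun i y => a i (q i) * y + b i (q i)) z =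
        L.foldr (fun i y => a' i (q i) * y + b' i (q i)) z' := by
  induction L with
  | nil => exact fun z => ⟨a, b, z, by simp, fun q => rfl⟩
  | cons x L ih =>
    intro z
    rw [List.nodup_cons] at hL
    obtain ⟨a', b', z', h1, h2⟩ := ih hL.2 (fun i hi => ha i (List.mem_cons_of_mem _ hi)) z
    have hα := ha x List.mem_cons_self
    set α := a x (ρ x) with hαdef
    set β := b x (ρ x) with hβdef
    refine ⟨fun i t => if i = x then a x t / α else a' i t,
      fun i t => if i = x then b x t - a x t * β / α else α * b' i t + β * (1 - a' i t),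
      α * z' + β, ?_, ?_⟩
    · intro i hi
      rcases List.mem_cons.1 hi with rfl | hi
      · simp only [if_true, ← hαdef, ← hβdef]
        constructor
        · exact div_self hα
        · field_simp; ring
      · have hne : i ≠ x := fun h => hL.1 (h ▸ hi)
        simp [hne, (h1 i hi).1, (h1 i hi).2]
    · intro q
      rw [List.foldr_cons, List.foldr_cons, h2 q]
      have key : ∀ (M : List ι), x ∉ M → ∀ w : K,
          M.foldr (fun i y => (if i = x then a x (q i) / α else a' i (q i)) * y +
            (if i = x then b x (q i) - a x (q i) * β / α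
              else α * b' i (q i) + β * (1 - a' i (q i)))) (α * w + β) =
          α * M.foldr (fun i y => a' i (q i) * y + b' i (q i)) w + β := by
        intro M hM w
        induction M with
        | nil => rfl
        | cons y M ihM =>
          rw [List.mem_cons, not_or] at hM
          rw [List.foldr_cons, ihM hM.2, List.foldr_cons, if_neg (Ne.symm hM.1),
            if_neg (Ne.symm hM.1)]
          ring
      rw [key L hL.1 z']
      beta_reduce
      rw [if_pos rfl, if_pos rfl]
      field_simp
      ring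

theorem Aff.rep {L : List ι} {ρ : ι → K} {f : (ι → K) → K}
    (h : Aff L ρ f) (hL : L.Nodup) : Rep 2 L ρ f := by
  obtain ⟨a, b, z, h1, h2⟩ := h
  obtain ⟨a', b', z', h3, h4⟩ := aff_normal ρ L hL a b (fun i hi => h1 i hi (by simp)) z
  refine ⟨Fin 2, inferInstance, inferInstance, fun i t => !![a' i t, b' i t; 0, 1],
    ![1, 0], ![z', 1], by simp, ?_, ?_⟩
  · intro i hi
    dsimp only
    rw [(h3 i hi).1, (h3 i hi).2]
    exact Matrix.one_fin_two.symm
  · intro q hq
    rw [h2 q hq, h4 q]
    have key : ∀ M : List ι,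
        Matrix.mulVec (M.map (fun i => !![a' i (q i), b' i (q i); 0, 1])).prod ![z', 1] =
        ![M.foldr (fun i y => a' i (q i) * y + b' i (q i)) z', 1] := by
      intro M
      induction M with
      | nil => simp
      | cons x M ih =>
        rw [List.map_cons, List.prod_cons, ← Matrix.mulVec_mulVec, ih, List.foldr_cons]
        ext i
        fin_cases i <;> simp [Matrix.mulVec, dotProduct, Fin.sum_univ_two]
    rw [key]
    simp [dotProduct, Fin.sum_univ_two]

theorem foldr_combine {L : List ι} (hL : L.Nodup) {x : ι} (hx : x ∈ L) (a b : ι → K → K)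
    (q : ι → K) (z : K) {μ1 μ2 l1 l2 : K} (h1 : l1 + l2 = 1) (h2 : l1 * μ1 + l2 * μ2 = 0) :
    L.foldr (fun i y => a i (q i) * y + b i (q i)) z =
      l1 * L.foldr (fun i y => (if i = x then a i (q i) + μ1 else a i (q i)) * y + b i (q i)) z +
      l2 * L.foldr (fun i y => (if i = x then a i (q i) + μ2 else a i (q i)) * y + b i (q i)) z := by
  have hnot : ∀ (μ : K) (M : List ι), x ∉ M →
      M.foldr (fun i y => (if i = x then a i (q i) + μ else a i (q i)) * y + b i (q i)) z =
      M.foldr (fun i y => a i (q i) * y + b i (q i)) z := by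
    intro μ M hM
    induction M with
    | nil => rfl
    | cons y M ih =>
      rw [List.mem_cons, not_or] at hM
      rw [List.foldr_cons, List.foldr_cons, ih hM.2, if_neg (Ne.symm hM.1)]
  induction L with
  | nil => simp at hx
  | cons y L ih =>
    rw [List.nodup_cons] at hL
    rw [List.foldr_cons, List.foldr_cons, List.foldr_cons]
    by_cases hyx : y = x
    · subst hyx
      rw [hnot μ1 L hL.1, hnot μ2 L hL.1, if_pos rfl, if_pos rfl]
      generalize L.foldr (fun i y => a i (q i) * y + b i (q i)) z = Y
      have e1 : l2 = 1 - l1 := by rw [← h1]; ring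
      subst e1
      linear_combination (-Y) * h2
    · have hxL : x ∈ L := by
        rcases List.mem_cons.1 hx with h | h
        · exact absurd h.symm hyx
        · exact h
      rw [ih hL.2 hxL, if_neg hyx, if_neg hyx]
      generalize L.foldr (fun i y =>
        (if i = x then a i (q i) + μ1 else a i (q i)) * y + b i (q i)) z = Y1
      generalize L.foldr (fun i y =>
        (if i = x then a i (q i) + μ2 else a i (q i)) * y + b i (q i)) z = Y2
      have e1 : l2 = 1 - l1 := by rw [← h1]; ring
      subst e1
      ring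

theorem Aff1.rep [Infinite K] {L : List ι} {ρ : ι → K} {f : (ι → K) → K}
    (h : Aff1 L ρ f) (hL : L.Nodup) : Rep 4 L ρ f := by
  classical
  obtain ⟨x0, a, b, z, h1, h2⟩ := h
  by_cases hall : ∀ i ∈ L, a i (ρ i) ≠ 0
  · have : Aff L ρ f := ⟨a, b, z, fun i hi _ => hall i hi, h2⟩
    exact (this.rep hL).mono (by norm_num)
  · push Not at hall
    obtain ⟨x, hx, hx0⟩ := hall
    have hother : ∀ i ∈ L, i ≠ x → a i (ρ i) ≠ 0 := by
      intro i hi hne
      by_cases h3 : some i = x0
      · exfalso
        by_cases h4 : some x = x0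
        · rw [← h4] at h3
          exact hne (Option.some.inj h3)
        · exact h1 x hx h4 hx0
      · exact h1 i hi h3
    obtain ⟨μ, hμ⟩ := ({0, 1} : Finset K).exists_notMem
    simp only [Finset.mem_insert, Finset.mem_singleton, not_or] at hμ
    have hne : (1 : K) - μ ≠ 0 := sub_ne_zero.2 (fun e => hμ.2 e.symm)
    have hrep : ∀ ν : K, ν ≠ 0 → Rep 2 L ρ (fun q => L.foldr
        (fun i y => (if i = x then a i (q i) + ν else a i (q i)) * y + b i (q i)) z) := by
      intro ν hν
      have : Aff L ρ (fun q => L.foldr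
        (fun i y => (if i = x then a i (q i) + ν else a i (q i)) * y + b i (q i)) z) := by
        refine ⟨fun i t => if i = x then a i t + ν else a i t, b, z, fun i hi _ => ?_,
          fun q _ => rfl⟩
        by_cases hix : i = x
        · subst hix
          simp only [if_true, hx0, zero_add]
          exact hν
        · simpa [hix] using hother i hi hix
      exact this.rep hL
    have e1 : (-μ / (1 - μ)) + (1 / (1 - μ)) = 1 := by field_simp; ring
    have e2 : (-μ / (1 - μ)) * 1 + (1 / (1 - μ)) * μ = 0 := by field_simp; ring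
    have h5 := ((hrep 1 one_ne_zero).smul (-μ / (1 - μ))).add ((hrep μ hμ.1).smul (1 / (1 - μ)))
    refine h5.congr (fun q hq => ?_)
    rw [h2 q hq]
    exact foldr_combine hL hx a b q z e1 e2

end

theorem AffX.nil (x0 : Option ι) (ρ : ι → K) (f : (ι → K) → K) : AffX x0 [] ρ f := by
  refine ⟨fun _ _ => 1, fun _ _ => 0, f ρ, by simp, fun q hq => ?_⟩
  have : q = ρ := funext (fun i => hq i (by simp))
  rw [this]
  rfl

section

variable [DecidableEq ι]

theorem AffX.singleton (x0 : Option ι) (x : ι) (ρ : ι → K) (f : (ι → K) → K) :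
    AffX x0 [x] ρ f := by
  refine ⟨fun _ _ => 1, fun _ t => f (update ρ x t), 0, by simp, fun q hq => ?_⟩
  have : q = update ρ x (q x) := by
    funext i
    by_cases hi : i = x
    · subst hi; simp
    · rw [update_of_ne hi]; exact hq i (by simpa using hi)
  rw [List.foldr_cons, List.foldr_nil]
  beta_reduce
  rw [← this]
  ring

theorem AffX.weaken {x0 : Option ι} {L : List ι} {ρ : ι → K} {f : (ι → K) → K}
    (h : AffX x0 L ρ f) {x : ι} (hx : x ∉ L) (hf : ∀ (q : ι → K) (t : K), f (update q x t) = f q) :
    AffX x0 (x :: L) ρ f := by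
  obtain ⟨a, b, z, h1, h2⟩ := h
  refine ⟨fun i t => if i = x then 1 else a i t, fun i t => if i = x then 0 else b i t, z, ?_, ?_⟩
  · intro i hi hi0
    rcases List.mem_cons.1 hi with rfl | hi
    · simp
    · have hne : i ≠ x := fun h => hx (h ▸ hi)
      simpa [hne] using h1 i hi hi0
  · intro q hq
    have h3 := h2 (update q x (ρ x)) (fun i hi => by
      by_cases hix : i = x
      · subst hix; simp
      · rw [update_of_ne hix]
        exact hq i (by simp [hix, hi]))
    rw [hf] at h3
    rw [h3, List.foldr_cons]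
    simp only [if_true]
    rw [one_mul, add_zero]
    refine foldr_congr_aff (a := a) (b := b) (a' := fun i t => if i = x then 1 else a i t)
      (b' := fun i t => if i = x then 0 else b i t) (q := update q x (ρ x)) (q' := q) z
      (fun i hi => ?_)
    have hne : i ≠ x := fun h => hx (h ▸ hi)
    simp [hne]

/-- `f` depends on the first member of the list only. -/
def HeadDep (L : List ι) (ρ : ι → K) (f : (ι → K) → K) : Prop :=
  match L with
  | [] => True
  | x :: L => ∀ q : ι → K, (∀ i, i ∉ x :: L → q i = ρ i) → f q = f (update ρ x (q x))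

/-- Applying an affine map depending on the first member of the list, not necessarily
invertible. -/
theorem AffX.appz_aux {L : List ι} {ρ : ι → K} {f g h : (ι → K) → K}
    (hf : Aff L ρ f) (hL : L.Nodup) (hg : HeadDep L ρ g) (α β : K → K)
    (hh : ∀ q, h q = α (g q) * f q + β (g q)) : Aff1 L ρ h := by
  obtain ⟨a, b, z, h1, h2⟩ := hf
  cases L with
  | nil => exact ⟨none, AffX.nil _ ρ h⟩
  | cons x L =>
    rw [List.nodup_cons] at hL
    refine ⟨some x, fun i t => if i = x then α (g (update ρ x t)) * a x t else a i t,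
      fun i t => if i = x then α (g (update ρ x t)) * b x t + β (g (update ρ x t)) else b i t,
      z, ?_, ?_⟩
    · intro i hi hi0
      have hix : i ≠ x := fun e => hi0 (by rw [e])
      simpa [hix] using h1 i hi (by simp)
    · intro q hq
      rw [hh, h2 q hq, hg q hq, List.foldr_cons, List.foldr_cons]
      beta_reduce
      rw [if_pos rfl, if_pos rfl]
      rw [foldr_congr_aff (L := L) (a := a) (b := b)
        (a' := fun i t => if i = x then α (g (update ρ x t)) * a x t else a i t)
        (b' := fun i t => if i = x then α (g (update ρ x t)) * b x t + β (g (update ρ x t))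
          else b i t) (q := q) (q' := q) z (fun i hi => by
        have hne : i ≠ x := fun h => hL.1 (h ▸ hi)
        simp [hne])]
      ring

theorem AffX.app_aux {x0 : Option ι} {L : List ι} {ρ : ι → K} {f g h : (ι → K) → K}
    (hf : AffX x0 L ρ f) (hL : L.Nodup) (hg : HeadDep L ρ g) (α β : K → K)
    (hα : α (g ρ) ≠ 0) (hh : ∀ q, h q = α (g q) * f q + β (g q)) : AffX x0 L ρ h := by
  obtain ⟨a, b, z, h1, h2⟩ := hf
  cases L with
  | nil => exact AffX.nil _ ρ h
  | cons x L =>
    rw [List.nodup_cons] at hL
    refine ⟨fun i t => if i = x then α (g (update ρ x t)) * a x t else a i t,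
      fun i t => if i = x then α (g (update ρ x t)) * b x t + β (g (update ρ x t)) else b i t,
      z, ?_, ?_⟩
    · intro i hi hi0
      by_cases hix : i = x
      · subst hix
        simp only [if_true, update_eq_self]
        exact mul_ne_zero hα (h1 i hi hi0)
      · simpa [hix] using h1 i hi hi0
    · intro q hq
      rw [hh, h2 q hq, hg q hq, List.foldr_cons, List.foldr_cons]
      beta_reduce
      rw [if_pos rfl, if_pos rfl]
      rw [foldr_congr_aff (L := L) (a := a) (b := b)
        (a' := fun i t => if i = x then α (g (update ρ x t)) * a x t else a i t)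
        (b' := fun i t => if i = x then α (g (update ρ x t)) * b x t + β (g (update ρ x t))
          else b i t) (q := q) (q' := q) z (fun i hi => by
        have hne : i ≠ x := fun h => hL.1 (h ▸ hi)
        simp [hne])]
      ring

/-- The coefficients of `o.app y c` as an affine function of `y`. -/
theorem exists_coeff_left (o : Op) : ∃ α β : K → K, (∀ c, (o = .mul → c ≠ 0) → α c ≠ 0) ∧
    ∀ y c : K, o.app y c = α c * y + β c := by
  cases o with
  | add => exact ⟨fun _ => 1, fun c => c, fun _ _ => one_ne_zero, fun y c => by simp [Op.app]⟩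
  | sub =>
    exact ⟨fun _ => 1, fun c => -c, fun _ _ => one_ne_zero,
      fun y c => by simp only [Op.app]; ring⟩
  | mul => exact ⟨fun c => c, fun _ => 0, fun c h => h rfl, fun y c => by simp only [Op.app]; ring⟩

/-- The coefficients of `o.app c y` as an affine function of `y`. -/
theorem exists_coeff_right (o : Op) : ∃ α β : K → K, (∀ c, (o = .mul → c ≠ 0) → α c ≠ 0) ∧
    ∀ y c : K, o.app c y = α c * y + β c := by
  cases o with
  | add =>
    exact ⟨fun _ => 1, fun c => c, fun _ _ => one_ne_zero,
      fun y c => by simp only [Op.app]; ring⟩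
  | sub =>
    exact ⟨fun _ => -1, fun c => c, fun _ _ => neg_ne_zero.2 one_ne_zero,
      fun y c => by simp only [Op.app]; ring⟩
  | mul => exact ⟨fun c => c, fun _ => 0, fun c h => h rfl, fun y c => by simp only [Op.app]; ring⟩

/-- The properties of a formula along a list at a point. -/
def Nice (L : List ι) (ρ : ι → K) (g : Fm K ι) : Prop :=
  (g.MU ρ → Aff L ρ (fun q => g.eval q)) ∧ (g.MUp ρ → Aff1 L ρ (fun q => g.eval q))

theorem Nice.nil (ρ : ι → K) (g : Fm K ι) : Nice [] ρ g :=
  ⟨fun _ => AffX.nil _ _ _, fun _ => ⟨none, AffX.nil _ _ _⟩⟩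

theorem Nice.singleton (x : ι) (ρ : ι → K) (g : Fm K ι) : Nice [x] ρ g :=
  ⟨fun _ => AffX.singleton _ _ _ _, fun _ => ⟨none, AffX.singleton _ _ _ _⟩⟩

theorem Nice.weaken {L : List ι} {ρ : ι → K} {g : Fm K ι} (h : Nice L ρ g) {x : ι} (hx : x ∉ L)
    (hg : g.occ x = 0) : Nice (x :: L) ρ g := by
  refine ⟨fun hM => ?_, fun hM => ?_⟩
  · exact AffX.weaken (h.1 hM) hx (fun q t => Fm.eval_update hg t)
  · obtain ⟨x0, h2⟩ := h.2 hM
    exact ⟨x0, h2.weaken hx (fun q t => Fm.eval_update hg t)⟩

theorem Nice.node_left {L : List ι} {ρ : ι → K} {a b : Fm K ι} (h : Nice L ρ a) (hL : L.Nodup)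
    (hb : HeadDep L ρ (fun q => b.eval q)) (o : Op) : Nice L ρ (.node o a b) := by
  obtain ⟨α, β, h1, h2⟩ := exists_coeff_left (K := K) o
  refine ⟨fun hM => ?_, fun hM => ?_⟩
  · exact AffX.app_aux (h.1 hM.1) hL hb α β (h1 _ (fun ho => (hM.2.2 ho).2)) (fun q => h2 _ _)
  · rcases hM with ⟨m1, m2, m3⟩ | ⟨m1, m2, m3⟩
    · obtain ⟨x0, h3⟩ := h.2 m1
      exact ⟨x0, h3.app_aux hL hb α β (h1 _ m3) (fun q => h2 _ _)⟩
    · exact AffX.appz_aux (h.1 m2) hL hb α β (fun q => h2 _ _)

theorem Nice.node_right {L : List ι} {ρ : ι → K} {a b : Fm K ι} (h : Nice L ρ b) (hL : L.Nodup)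
    (ha : HeadDep L ρ (fun q => a.eval q)) (o : Op) : Nice L ρ (.node o a b) := by
  obtain ⟨α, β, h1, h2⟩ := exists_coeff_right (K := K) o
  refine ⟨fun hM => ?_, fun hM => ?_⟩
  · exact AffX.app_aux (h.1 hM.2.1) hL ha α β (h1 _ (fun ho => (hM.2.2 ho).1)) (fun q => h2 _ _)
  · rcases hM with ⟨m1, m2, m3⟩ | ⟨m1, m2, m3⟩
    · exact AffX.appz_aux (h.1 m2) hL ha α β (fun q => h2 _ _)
    · obtain ⟨x0, h3⟩ := h.2 m1
      exact ⟨x0, h3.app_aux hL ha α β (h1 _ m3) (fun q => h2 _ _)⟩

end

end Pool.Agent.RK
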