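import Mathlib
import Pool.Agent.Work.RK.Chain

/-!
# Regularisation of formulas
-/

set_option autoImplicit false

namespace Pool.Agent.RK

open Function Polynomial

variable {K : Type} [Field K] {ι κ : Type} [DecidableEq ι]

/-- The variable `i` occurs in at least two of: the left part, the right part, the rest, where `T i`
is the total number of occurrences. -/
def Split (T : ι → ℕ) (a b : Fm K ι) (i : ι) : Prop :=
  (0 < a.occ i ∧ 0 < b.occ i) ∨ (0 < a.occ i ∧ a.occ i + b.occ i < T i) ∨
    (0 < b.occ i ∧ a.occ i + b.occ i < T i)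

instance (T : ι → ℕ) (a b : Fm K ι) : DecidablePred (Split T a b) := fun i => by
  unfold Split
  infer_instance

/-- At each gate at most `M` variables of `V` are split. -/
def Thin (T : ι → ℕ) (V : Finset ι) (M : ℕ) : Fm K ι → Prop
  | .leaf _ _ => True
  | .const _ => True
  | .node _ a b => Thin T V M a ∧ Thin T V M b ∧ (V.filter (Split T a b)).card ≤ M

/-- The variables of `V` all of whose occurrences are in `g`. -/
def Dset (T : ι → ℕ) (V : Finset ι) (g : Fm K ι) : Finset ι := V.filter (fun i => g.occ i = T i)

/-- The variables of `V` which occur in `g`. -/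
def Vset (V : Finset ι) (g : Fm K ι) : Finset ι := V.filter (fun i => 0 < g.occ i)

/-- The bound for chains. -/
def beta (M : ℕ) : ℕ → ℕ
  | 0 => 1
  | l + 1 => 2 * beta M l + M

theorem beta_lt_succ (M l : ℕ) : beta M l < beta M (l + 1) := by
  have h : ∀ l, 1 ≤ beta M l := by
    intro l
    induction l with
    | zero => exact le_refl _
    | succ l ih => rw [beta]; omega
  have := h l
  rw [beta]
  omega

theorem beta_strictMono (M : ℕ) : StrictMono (beta M) := strictMono_nat_of_lt_succ (beta_lt_succ M)

/-- The property of the pairs `(L, E)` constructed by recursion. -/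
def Chain (T : ι → ℕ) (V : Finset ι) (M : ℕ) (g : Fm K ι) (L : List ι) (E : Finset ι) : Prop :=
  L.Nodup ∧ (∀ i ∈ L, i ∈ Dset T V g) ∧ (Dset T V g ∪ E).card ≤ beta M L.length ∧
  ∀ ρ : ι → K, Nice L ρ g ∧ ∀ i ∈ V, i ∉ Dset T V g → i ∉ E → Nice (i :: L) ρ g

theorem headDep_of {L : List ι} {b : Fm K ι} (hL : ∀ j ∈ L.tail, b.occ j = 0) (ρ : ι → K) :
    HeadDep L ρ (fun q => b.eval q) := by
  cases L with
  | nil => trivial
  | cons x L =>
    intro q hq
    refine b.eval_congr (fun j hj => ?_)
    by_cases hjx : j = x
    · subst hjx; rw [update_self]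
    · rw [update_of_ne hjx]
      refine hq j ?_
      rw [List.mem_cons, not_or]
      exact ⟨hjx, fun h => hj (hL j h)⟩

theorem chain_step {T : ι → ℕ} {V : Finset ι} {M : ℕ} (hT : ∀ i ∈ V, 0 < T i)
    {g a b : Fm K ι} (hocc : ∀ i, g.occ i = a.occ i + b.occ i) (hg : ∀ i ∈ V, g.occ i ≤ T i)
    (hsp : (V.filter (Split T a b)).card ≤ M)
    (happ : ∀ (L : List ι) (ρ : ι → K), L.Nodup → Nice L ρ a →
      HeadDep L ρ (fun q => b.eval q) → Nice L ρ g)
    {L : List ι} {E : Finset ι} (hL : Chain T V M a L E)
    (hb : (Dset T V b).card ≤ beta M L.length) :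
    ∃ (L' : List ι) (E' : Finset ι), Chain T V M g L' E' := by
  obtain ⟨h1, h2, h3, h4⟩ := hL
  have hDa : Dset T V a ⊆ Dset T V g := by
    intro i hi
    simp only [Dset, Finset.mem_filter] at hi ⊢
    have := hg i hi.1
    have := hocc i
    exact ⟨hi.1, by omega⟩
  have hb0 : ∀ i ∈ L, b.occ i = 0 := by
    intro i hi
    have h5 := h2 i hi
    simp only [Dset, Finset.mem_filter] at h5
    have := hg i h5.1
    have := hocc i
    omega
  by_cases hcase : Dset T V g ⊆ Dset T V a ∪ E
  · refine ⟨L, E, h1, fun i hi => hDa (h2 i hi), ?_, fun ρ => ⟨?_, ?_⟩⟩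
    · refine le_trans (Finset.card_le_card ?_) h3
      exact Finset.union_subset hcase Finset.subset_union_right
    · exact happ L ρ h1 (h4 ρ).1 (headDep_of (fun j hj => hb0 j (List.mem_of_mem_tail hj)) ρ)
    · intro i hi hiD hiE
      have hia : i ∉ Dset T V a := fun h => hiD (hDa h)
      have hiL : i ∉ L := fun h => hia (h2 i h)
      exact happ (i :: L) ρ (List.nodup_cons.2 ⟨hiL, h1⟩) ((h4 ρ).2 i hi hia hiE)
        (headDep_of (L := i :: L) (fun j hj => hb0 j hj) ρ)
  · rw [Finset.not_subset] at hcase
    obtain ⟨i, hi, hi2⟩ := hcase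
    rw [Finset.notMem_union] at hi2
    have hiL : i ∉ L := fun h => hi2.1 (h2 i h)
    have hiV : i ∈ V := (Finset.mem_filter.1 hi).1
    have hnd : (i :: L).Nodup := List.nodup_cons.2 ⟨hiL, h1⟩
    refine ⟨i :: L, Vset V g, hnd, ?_, ?_, fun ρ => ?_⟩
    · intro j hj
      rcases List.mem_cons.1 hj with rfl | hj
      · exact hi
      · exact hDa (h2 j hj)
    · have hsub : Dset T V g ∪ Vset V g ⊆ (Dset T V a ∪ E) ∪ (Dset T V b ∪
          V.filter (Split T a b)) := by
        intro j hj
        have hj1 : j ∈ V ∧ 0 < g.occ j := by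
          rcases Finset.mem_union.1 hj with hj | hj
          · simp only [Dset, Finset.mem_filter] at hj
            have := hT j hj.1
            exact ⟨hj.1, by omega⟩
          · simpa only [Vset, Finset.mem_filter] using hj
        have h5 := hg j hj1.1
        have h6 := hocc j
        simp only [Finset.mem_union, Dset, Finset.mem_filter, Split]
        by_cases ha : a.occ j = T j
        · exact Or.inl (Or.inl ⟨hj1.1, ha⟩)
        · by_cases hb' : b.occ j = T j
          · exact Or.inr (Or.inl ⟨hj1.1, hb'⟩)
          · refine Or.inr (Or.inr ⟨hj1.1, ?_⟩)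
            omega
      have h5 := Finset.card_le_card hsub
      have h6 := Finset.card_union_le (Dset T V a ∪ E) (Dset T V b ∪ V.filter (Split T a b))
      have h7 := Finset.card_union_le (Dset T V b) (V.filter (Split T a b))
      rw [List.length_cons, beta]
      omega
    · have h5 : Nice (i :: L) ρ g := happ (i :: L) ρ hnd ((h4 ρ).2 i hiV hi2.1 hi2.2)
          (headDep_of (L := i :: L) (fun j hj => hb0 j hj) ρ)
      refine ⟨h5, fun j hjV hjD hjE => ?_⟩
      have hj0 : g.occ j = 0 := by
        simp only [Vset, Finset.mem_filter, not_and] at hjE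
        have := hjE hjV
        omega
      refine h5.weaken ?_ hj0
      intro hj
      rcases List.mem_cons.1 hj with rfl | hj
      · exact hjD hi
      · exact hjD (hDa (h2 j hj))

theorem exists_chain {T : ι → ℕ} {V : Finset ι} {M : ℕ} (hT : ∀ i ∈ V, 0 < T i) (g : Fm K ι)
    (hg : ∀ i ∈ V, g.occ i ≤ T i) (hthin : Thin T V M g) :
    ∃ (L : List ι) (E : Finset ι), Chain T V M g L E := by
  induction g with
  | leaf i P =>
    refine ⟨[], ∅, List.nodup_nil, by simp, ?_, fun ρ => ⟨Nice.nil _ _, fun j _ _ _ =>
      Nice.singleton _ _ _⟩⟩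
    have h1 : Dset T V (Fm.leaf i P : Fm K ι) ∪ ∅ ⊆ {i} := by
      intro j hj
      rw [Finset.union_empty] at hj
      simp only [Dset, Finset.mem_filter, Fm.occ] at hj
      have := hT j hj.1
      rw [Finset.mem_singleton]
      by_contra hne
      rw [if_neg (Ne.symm hne)] at hj
      omega
    have h2 := Finset.card_le_card h1
    rw [Finset.card_singleton] at h2
    exact h2
  | const c =>
    refine ⟨[], ∅, List.nodup_nil, by simp, ?_, fun ρ => ⟨Nice.nil _ _, fun j _ _ _ =>
      Nice.singleton _ _ _⟩⟩
    have h1 : Dset T V (Fm.const c : Fm K ι) ∪ ∅ ⊆ ∅ := by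
      intro j hj
      rw [Finset.union_empty] at hj
      simp only [Dset, Finset.mem_filter, Fm.occ] at hj
      have := hT j hj.1
      omega
    have h2 := Finset.card_le_card h1
    rw [Finset.card_empty] at h2
    omega
  | node o a b iha ihb =>
    obtain ⟨t1, t2, t3⟩ := hthin
    obtain ⟨L1, E1, hL1⟩ := iha (fun i hi => le_trans (by simp [Fm.occ]) (hg i hi)) t1
    obtain ⟨L2, E2, hL2⟩ := ihb (fun i hi => le_trans (by simp [Fm.occ]) (hg i hi)) t2
    have hca : (Dset T V a).card ≤ beta M L1.length :=
      (Finset.card_le_card Finset.subset_union_left).trans hL1.2.2.1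
    have hcb : (Dset T V b).card ≤ beta M L2.length :=
      (Finset.card_le_card Finset.subset_union_left).trans hL2.2.2.1
    rcases le_total L2.length L1.length with hle | hle
    · exact chain_step (g := .node o a b) (a := a) (b := b) hT (fun i => rfl) hg t3
        (fun L ρ hnd ha hb => ha.node_left hnd hb o) hL1
        (hcb.trans ((beta_strictMono M).monotone hle))
    · refine chain_step (g := .node o a b) (a := b) (b := a) hT
        (fun i => by simp only [Fm.occ]; omega) hg ?_
        (fun L ρ hnd ha hb => ha.node_right hnd hb o) hL2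
        (hca.trans ((beta_strictMono M).monotone hle))
      have : V.filter (Split T b a) = V.filter (Split T a b) := by
        refine Finset.filter_congr (fun i _ => ?_)
        unfold Split
        omega
      rw [this]
      exact t3

/-! ### Monotone sublists -/

omit [DecidableEq ι] in
theorem erdos_szekeres (r : ι → ℕ) (n : ℕ) : ∀ (a b : ℕ), a + b = n → ∀ L : List ι,
    (∀ i ∈ L, ∀ j ∈ L, r i = r j → i = j) → L.Nodup → 2 ^ n ≤ L.length →
    (∃ L' : List ι, L'.Sublist L ∧ L'.length = a ∧ L'.Pairwise (fun i j => r i < r j)) ∨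
    (∃ L' : List ι, L'.Sublist L ∧ L'.length = b ∧ L'.Pairwise (fun i j => r j < r i)) := by
  induction n with
  | zero =>
    intro a b hab L _ _ _
    exact Or.inl ⟨[], List.nil_sublist _, by simp; omega, List.Pairwise.nil⟩
  | succ n ih =>
    intro a b hab L hinj hnd hlen
    cases a with
    | zero => exact Or.inl ⟨[], List.nil_sublist _, by simp, List.Pairwise.nil⟩
    | succ a =>
    cases b with
    | zero => exact Or.inr ⟨[], List.nil_sublist _, by simp, List.Pairwise.nil⟩
    | succ b =>
    cases L with
    | nil =>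
      have := Nat.one_le_two_pow (n := n + 1)
      simp at hlen
    | cons x L =>
      rw [List.nodup_cons] at hnd
      have hsum : (L.filter (fun i => decide (r x < r i))).length +
          (L.filter (fun i => decide (r i < r x))).length = L.length := by
        have h1 := List.length_eq_length_filter_add (l := L) (fun i => decide (r x < r i))
        have h2 : L.filter (fun i => !decide (r x < r i)) =
            L.filter (fun i => decide (r i < r x)) := by
          refine List.filter_congr (fun i hi => ?_)
          have h3 : r x ≠ r i := by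
            intro h
            have := hinj x List.mem_cons_self i (List.mem_cons_of_mem _ hi) h
            exact hnd.1 (this ▸ hi)
          by_cases h4 : r x < r i
          · have h5 : ¬ r i < r x := by omega
            simp [h4, h5]
          · have h5 : r i < r x := by omega
            simp [h4, h5]
        rw [h2] at h1
        omega
      have hpow : 2 ^ (n + 1) = 2 * 2 ^ n := by rw [pow_succ]; ring
      rw [List.length_cons] at hlen
      rcases Nat.lt_or_ge (L.filter (fun i => decide (r x < r i))).length (2 ^ n) with hc | hc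
      · have h5 : 2 ^ n ≤ (L.filter (fun i => decide (r i < r x))).length := by omega
        set M := L.filter (fun i => decide (r i < r x)) with hM
        have hsub : M.Sublist L := List.filter_sublist
        rcases ih (a + 1) b (by omega) M
          (fun i hi j hj => hinj i (List.mem_cons_of_mem _ (hsub.subset hi)) j
            (List.mem_cons_of_mem _ (hsub.subset hj))) (hsub.nodup hnd.2) h5 with
          ⟨L', h6, h7, h8⟩ | ⟨L', h6, h7, h8⟩
        · exact Or.inl ⟨L', (h6.trans hsub).trans (List.sublist_cons_self _ _), h7, h8⟩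
        · refine Or.inr ⟨x :: L', (h6.trans hsub).cons_cons x, by simp [h7], ?_⟩
          refine List.Pairwise.cons (fun j hj => ?_) h8
          have := (List.mem_filter.1 (h6.subset hj)).2
          simpa using this
      · set M := L.filter (fun i => decide (r x < r i)) with hM
        have hsub : M.Sublist L := List.filter_sublist
        rcases ih a (b + 1) (by omega) M
          (fun i hi j hj => hinj i (List.mem_cons_of_mem _ (hsub.subset hi)) j
            (List.mem_cons_of_mem _ (hsub.subset hj))) (hsub.nodup hnd.2) hc with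
          ⟨L', h6, h7, h8⟩ | ⟨L', h6, h7, h8⟩
        · refine Or.inl ⟨x :: L', (h6.trans hsub).cons_cons x, by simp [h7], ?_⟩
          refine List.Pairwise.cons (fun j hj => ?_) h8
          have := (List.mem_filter.1 (h6.subset hj)).2
          simpa using this
        · exact Or.inr ⟨L', (h6.trans hsub).trans (List.sublist_cons_self _ _), h7, h8⟩

theorem sublist_of_pairwise {V L : List ι} (hsub : ∀ i ∈ L, i ∈ V)
    (h : L.Pairwise (fun i j => V.idxOf i < V.idxOf j)) : L.Sublist V := by
  rw [List.sublist_iff_exists_fin_orderEmbedding_get_eq]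
  have hlt : ∀ i : Fin L.length, V.idxOf (L.get i) < V.length :=
    fun i => List.idxOf_lt_length_of_mem (hsub _ (List.get_mem _ _))
  have hmono : StrictMono (fun i : Fin L.length => (⟨V.idxOf (L.get i), hlt i⟩ : Fin V.length)) := by
    intro i j hij
    show V.idxOf (L.get i) < V.idxOf (L.get j)
    exact List.pairwise_iff_get.1 h i j hij
  refine ⟨OrderEmbedding.ofStrictMono _ hmono, fun i => ?_⟩
  simp

/-! ### The regularisation theorem -/

/-- If many variables of the list do not occur at all, there is nothing to do. -/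
theorem reg_zero {s : ℕ} {Φ : Fm K ι} {V : List ι}
    (h : s ≤ (V.filter (fun i => decide (Φ.occ i = 0))).length) :
    ∃ L : List ι, L.Sublist V ∧ L.length = s ∧ ∀ ρ : ι → K, Rep 1 L ρ (fun q => Φ.eval q) := by
  refine ⟨(V.filter (fun i => decide (Φ.occ i = 0))).take s,
    (List.take_sublist _ _).trans List.filter_sublist, by rw [List.length_take]; omega, fun ρ => ?_⟩
  refine Rep.of_const (fun q hq => Φ.eval_congr (fun i hi => hq i (fun h' => hi ?_)))
  have := (List.mem_filter.1 (List.mem_of_mem_take h')).2
  simpa using this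

/-- The thin case. -/
theorem reg_thin [Infinite K] {s M : ℕ} {Φ : Fm K ι} {V : List ι} (hV : V.Nodup)
    (hpos : ∀ i ∈ V, 0 < Φ.occ i) (hlen : beta M (2 ^ (s + s)) < V.length)
    (hthin : Thin (fun i => Φ.occ i) V.toFinset M Φ) :
    ∃ L : List ι, L.Sublist V ∧ L.length = s ∧
      ∀ ρ : ι → K, Φ.MUp ρ → Rep 4 L ρ (fun q => Φ.eval q) := by
  obtain ⟨L, E, h1, h2, h3, h4⟩ := exists_chain (T := fun i => Φ.occ i) (V := V.toFinset)
    (fun i hi => hpos i (List.mem_toFinset.1 hi)) Φ (fun i _ => le_refl _) hthin
  have hD : Dset (fun i => Φ.occ i) V.toFinset Φ = V.toFinset := by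
    unfold Dset
    exact Finset.filter_true_of_mem (fun i _ => rfl)
  have h5 : V.length ≤ beta M L.length := by
    rw [hD] at h3
    have := Finset.card_le_card (Finset.subset_union_left (s₁ := V.toFinset) (s₂ := E))
    rw [List.toFinset_card_of_nodup hV] at this
    omega
  have h6 : 2 ^ (s + s) < L.length := (beta_strictMono M).lt_iff_lt.1 (hlen.trans_le h5)
  have hLV : ∀ i ∈ L, i ∈ V := by
    intro i hi
    have := h2 i hi
    rw [hD, List.mem_toFinset] at this
    exact this
  rcases erdos_szekeres (fun i => V.idxOf i) (s + s) s s rfl L (fun i hi j hj hij =>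
    (List.idxOf_inj (hLV i hi)).1 hij) h1 h6.le with ⟨L', h7, h8, h9⟩ | ⟨L', h7, h8, h9⟩
  · refine ⟨L', sublist_of_pairwise (fun i hi => hLV i (h7.subset hi)) h9, h8, fun ρ hρ => ?_⟩
    exact (((h4 ρ).1.2 hρ).rep h1).sublist h1 h7
  · refine ⟨L'.reverse, sublist_of_pairwise (fun i hi => hLV i (h7.subset (List.mem_reverse.1 hi)))
      (List.pairwise_reverse.2 h9), by simp [h8], fun ρ hρ => ?_⟩
    exact ((((h4 ρ).1.2 hρ).rep h1).sublist h1 h7).reverse

end Pool.Agent.RK
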