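import Mathlib
import Pool.Agent.Work.RK.Reg

/-!
# Identifications of thin formulas
-/

set_option autoImplicit false

namespace Pool.Agent.RK

open Function Polynomial

variable {K : Type} [Field K] {ι κ : Type}

section

variable [DecidableEq ι]

/-- The variables which occur in `g` and also outside, where `T` is the total number of
occurrences. -/
def cross (T : ι → ℕ) (g : Fm K ι) : Set ι := {u | 0 < g.occ u ∧ g.occ u < T u}

/-- Each subformula which is a child of a gate shares at most `c` variables with the rest. -/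
def CT (T : ι → ℕ) (c : ℕ) : Fm K ι → Prop
  | .leaf _ _ => True
  | .const _ => True
  | .node _ a b => CT T c a ∧ CT T c b ∧ (cross T a).encard ≤ c ∧ (cross T b).encard ≤ c

theorem cross_mono {T T' : ι → ℕ} {g g' : Fm K ι}
    (h : ∀ u, 0 < g'.occ u → g'.occ u < T' u → 0 < g.occ u ∧ g.occ u < T u) :
    (cross T' g').encard ≤ (cross T g).encard :=
  Set.encard_le_encard (fun u hu => h u hu.1 hu.2)

theorem CT.mono {T T' : ι → ℕ} {c : ℕ} {g : Fm K ι} (h : ∀ u, 0 < g.occ u → T' u ≤ T u)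
    (hg : CT T c g) : CT T' c g := by
  induction g with
  | leaf i P => trivial
  | const c => trivial
  | node o a b iha ihb =>
    obtain ⟨h1, h2, h3, h4⟩ := hg
    have ha : ∀ u, 0 < a.occ u → T' u ≤ T u := fun u hu => h u (by simp only [Fm.occ]; omega)
    have hb : ∀ u, 0 < b.occ u → T' u ≤ T u := fun u hu => h u (by simp only [Fm.occ]; omega)
    exact ⟨iha ha h1, ihb hb h2,
      (cross_mono (fun u hu hu2 => ⟨hu, hu2.trans_le (ha u hu)⟩)).trans h3,
      (cross_mono (fun u hu hu2 => ⟨hu, hu2.trans_le (hb u hu)⟩)).trans h4⟩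

end

variable [DecidableEq ι] [DecidableEq κ]

/-- The labels over `v` which occur in `g`. -/
def Pset (g : Fm K (ι × κ)) (v : ι) : Set (ι × κ) := {u | u.1 = v ∧ 0 < g.occ u}

/-- The conclusion of the splitting lemma. -/
structure SplitAt (T : ι → ℕ) (V : Finset ι) (M : ℕ) (h : ι × κ) (g : Fm K (ι × κ))
    (Ψ : Fm K (ι × κ)) (o : Op) (a b : Fm K (ι × κ)) : Prop where
  affine : ∀ ρ : ι × κ → K, ∃ A B : K, ∀ ζ, Ψ.eval (update ρ h ζ) = A * ζ + B
  occh : Ψ.occ h = 1 ∧ a.occ h = 0 ∧ b.occ h = 0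
  occ : ∀ i, i ≠ h → Ψ.occ i + a.occ i + b.occ i = g.occ i
  occm : ∀ v, v ≠ h.1 → (Ψ.map Prod.fst).occ v + (a.map Prod.fst).occ v +
    (b.map Prod.fst).occ v = (g.map Prod.fst).occ v
  eval : ∀ q : ι × κ → K, g.eval q = Ψ.eval (update q h (o.app (a.eval q) (b.eval q)))
  mu : ∀ ρ : ι × κ → K, g.MU ρ → {ζ : K | ¬ Ψ.MU (update ρ h ζ)}.Finite ∧ a.MU ρ ∧ b.MU ρ
  mup : ∀ ρ : ι × κ → K, g.MUp ρ → {ζ : K | ¬ Ψ.MUp (update ρ h ζ)}.Finite ∧ a.MUp ρ ∧ b.MUp ρ
  card : M < (V.filter (Split T (a.map Prod.fst) (b.map Prod.fst))).card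
  ct : ∀ (T' : ι × κ → ℕ) (c : ℕ), CT T' c g →
    CT (fun i => if i = h then 1 else T' i - (a.occ i + b.occ i)) c Ψ ∧ CT T' c a ∧ CT T' c b ∧
      (cross T' a).encard ≤ c ∧ (cross T' b).encard ≤ c

theorem SplitAt.evalz {T : ι → ℕ} {V : Finset ι} {M : ℕ} {h : ι × κ} {g Ψ : Fm K (ι × κ)} {o : Op}
    {a b : Fm K (ι × κ)} (hs : SplitAt T V M h g Ψ o a b) (ρ : ι × κ → K) (h0 : g.eval ρ ≠ 0) :
    {ζ : K | Ψ.eval (update ρ h ζ) = 0}.Finite := by
  rw [hs.eval] at h0
  exact Ψ.update_finite ρ h h0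

theorem SplitAt.left {T : ι → ℕ} {V : Finset ι} {M : ℕ} {h : ι × κ} {f g Ψ : Fm K (ι × κ)}
    {o : Op} {a b : Fm K (ι × κ)} (hs : SplitAt T V M h f Ψ o a b) (hg0 : g.occ h = 0) (o' : Op) :
    SplitAt T V M h (.node o' f g) (.node o' Ψ g) o a b where
  affine := by
    intro ρ
    obtain ⟨A, B, hAB⟩ := hs.affine ρ
    cases o' with
    | add =>
      refine ⟨A, B + g.eval ρ, fun ζ => ?_⟩
      simp only [Fm.eval, Op.app, Fm.eval_update hg0, hAB]; ring
    | sub =>
      refine ⟨A, B - g.eval ρ, fun ζ => ?_⟩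
      simp only [Fm.eval, Op.app, Fm.eval_update hg0, hAB]; ring
    | mul =>
      refine ⟨A * g.eval ρ, B * g.eval ρ, fun ζ => ?_⟩
      simp only [Fm.eval, Op.app, Fm.eval_update hg0, hAB]; ring
  occh := by
    obtain ⟨h1, h2, h3⟩ := hs.occh
    exact ⟨by simp only [Fm.occ]; omega, h2, h3⟩
  occ := by
    intro i hi
    have := hs.occ i hi
    simp only [Fm.occ]
    omega
  occm := by
    intro v hv
    have := hs.occm v hv
    simp only [Fm.map, Fm.occ]
    omega
  eval := by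
    intro q
    simp only [Fm.eval]
    rw [← hs.eval q, Fm.eval_update hg0]
  mu := by
    intro ρ hρ
    obtain ⟨m1, m2, m3⟩ := hs.mu ρ hρ.1
    refine ⟨?_, m2, m3⟩
    by_cases ho : o' = .mul
    · refine (m1.union (hs.evalz ρ (hρ.2.2 ho).1)).subset (fun ζ hζ => ?_)
      simp only [Set.mem_ofPred_eq, Set.mem_union, Fm.MU] at hζ ⊢
      by_contra hcon
      push Not at hcon
      refine hζ ⟨hcon.1, Fm.MU_update hg0 _ hρ.2.1, fun _ => ⟨hcon.2, ?_⟩⟩
      rw [Fm.eval_update hg0]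
      exact (hρ.2.2 ho).2
    · refine m1.subset (fun ζ hζ => ?_)
      simp only [Set.mem_ofPred_eq, Fm.MU] at hζ ⊢
      intro h1
      exact hζ ⟨h1, Fm.MU_update hg0 _ hρ.2.1, fun h2 => absurd h2 ho⟩
  mup := by
    intro ρ hρ
    rcases hρ with ⟨h1, h2, h3⟩ | ⟨h1, h2, h3⟩
    · obtain ⟨m1, m2, m3⟩ := hs.mup ρ h1
      refine ⟨m1.subset (fun ζ hζ => ?_), m2, m3⟩
      simp only [Set.mem_ofPred_eq, Fm.MUp, not_or] at hζ ⊢
      intro h4
      exact hζ.1 ⟨h4, Fm.MU_update hg0 _ h2, fun ho => by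
        rw [Fm.eval_update hg0]; exact h3 ho⟩
    · obtain ⟨m1, m2, m3⟩ := hs.mu ρ h2
      refine ⟨?_, m2.mup, m3.mup⟩
      by_cases ho : o' = .mul
      · refine (m1.union (hs.evalz ρ (h3 ho))).subset (fun ζ hζ => ?_)
        simp only [Set.mem_ofPred_eq, Set.mem_union, Fm.MUp, not_or] at hζ ⊢
        by_contra hcon
        push Not at hcon
        exact hζ.2 ⟨Fm.MUp_update hg0 _ h1, hcon.1, fun _ => hcon.2⟩
      · refine m1.subset (fun ζ hζ => ?_)
        simp only [Set.mem_ofPred_eq, Fm.MUp, not_or] at hζ ⊢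
        intro h4
        exact hζ.2 ⟨Fm.MUp_update hg0 _ h1, h4, fun h5 => absurd h5 ho⟩
  card := hs.card
  ct := by
    rintro T' c ⟨c1, c2, c3, c4⟩
    obtain ⟨d1, d2, d3, d4, d5⟩ := hs.ct T' c c1
    refine ⟨⟨d1, ?_, ?_, ?_⟩, d2, d3, d4, d5⟩
    · refine c2.mono (fun u hu => ?_)
      have hne : u ≠ h := by rintro rfl; omega
      simp only [hne, if_false]
      omega
    · refine (cross_mono (fun u hu hu2 => ?_)).trans c3
      by_cases hne : u = h
      · subst hne
        have := hs.occh.1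
        simp only [if_true] at hu2
        omega
      · have := hs.occ u hne
        simp only [hne, if_false] at hu2
        omega
    · refine (cross_mono (fun u hu hu2 => ?_)).trans c4
      have hne : u ≠ h := by rintro rfl; omega
      simp only [hne, if_false] at hu2
      omega

theorem SplitAt.right {T : ι → ℕ} {V : Finset ι} {M : ℕ} {h : ι × κ} {f g Ψ : Fm K (ι × κ)}
    {o : Op} {a b : Fm K (ι × κ)} (hs : SplitAt T V M h g Ψ o a b) (hf0 : f.occ h = 0) (o' : Op) :
    SplitAt T V M h (.node o' f g) (.node o' f Ψ) o a b where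
  affine := by
    intro ρ
    obtain ⟨A, B, hAB⟩ := hs.affine ρ
    cases o' with
    | add =>
      refine ⟨A, f.eval ρ + B, fun ζ => ?_⟩
      simp only [Fm.eval, Op.app, Fm.eval_update hf0, hAB]; ring
    | sub =>
      refine ⟨-A, f.eval ρ - B, fun ζ => ?_⟩
      simp only [Fm.eval, Op.app, Fm.eval_update hf0, hAB]; ring
    | mul =>
      refine ⟨f.eval ρ * A, f.eval ρ * B, fun ζ => ?_⟩
      simp only [Fm.eval, Op.app, Fm.eval_update hf0, hAB]; ring
  occh := by
    obtain ⟨h1, h2, h3⟩ := hs.occh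
    exact ⟨by simp only [Fm.occ]; omega, h2, h3⟩
  occ := by
    intro i hi
    have := hs.occ i hi
    simp only [Fm.occ]
    omega
  occm := by
    intro v hv
    have := hs.occm v hv
    simp only [Fm.map, Fm.occ]
    omega
  eval := by
    intro q
    simp only [Fm.eval]
    rw [← hs.eval q, Fm.eval_update hf0]
  mu := by
    intro ρ hρ
    obtain ⟨m1, m2, m3⟩ := hs.mu ρ hρ.2.1
    refine ⟨?_, m2, m3⟩
    by_cases ho : o' = .mul
    · refine (m1.union (hs.evalz ρ (hρ.2.2 ho).2)).subset (fun ζ hζ => ?_)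
      simp only [Set.mem_ofPred_eq, Set.mem_union, Fm.MU] at hζ ⊢
      by_contra hcon
      push Not at hcon
      refine hζ ⟨Fm.MU_update hf0 _ hρ.1, hcon.1, fun _ => ⟨?_, hcon.2⟩⟩
      rw [Fm.eval_update hf0]
      exact (hρ.2.2 ho).1
    · refine m1.subset (fun ζ hζ => ?_)
      simp only [Set.mem_ofPred_eq, Fm.MU] at hζ ⊢
      intro h1
      exact hζ ⟨Fm.MU_update hf0 _ hρ.1, h1, fun h2 => absurd h2 ho⟩
  mup := by
    intro ρ hρ
    rcases hρ with ⟨h1, h2, h3⟩ | ⟨h1, h2, h3⟩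
    · obtain ⟨m1, m2, m3⟩ := hs.mu ρ h2
      refine ⟨?_, m2.mup, m3.mup⟩
      by_cases ho : o' = .mul
      · refine (m1.union (hs.evalz ρ (h3 ho))).subset (fun ζ hζ => ?_)
        simp only [Set.mem_ofPred_eq, Set.mem_union, Fm.MUp, not_or] at hζ ⊢
        by_contra hcon
        push Not at hcon
        exact hζ.1 ⟨Fm.MUp_update hf0 _ h1, hcon.1, fun _ => hcon.2⟩
      · refine m1.subset (fun ζ hζ => ?_)
        simp only [Set.mem_ofPred_eq, Fm.MUp, not_or] at hζ ⊢
        intro h4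
        exact hζ.1 ⟨Fm.MUp_update hf0 _ h1, h4, fun h5 => absurd h5 ho⟩
    · obtain ⟨m1, m2, m3⟩ := hs.mup ρ h1
      refine ⟨m1.subset (fun ζ hζ => ?_), m2, m3⟩
      simp only [Set.mem_ofPred_eq, Fm.MUp, not_or] at hζ ⊢
      intro h4
      exact hζ.2 ⟨h4, Fm.MU_update hf0 _ h2, fun ho => by
        rw [Fm.eval_update hf0]; exact h3 ho⟩
  card := hs.card
  ct := by
    rintro T' c ⟨c1, c2, c3, c4⟩
    obtain ⟨d1, d2, d3, d4, d5⟩ := hs.ct T' c c2
    refine ⟨⟨?_, d1, ?_, ?_⟩, d2, d3, d4, d5⟩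
    · refine c1.mono (fun u hu => ?_)
      have hne : u ≠ h := by rintro rfl; omega
      simp only [hne, if_false]
      omega
    · refine (cross_mono (fun u hu hu2 => ?_)).trans c3
      have hne : u ≠ h := by rintro rfl; omega
      simp only [hne, if_false] at hu2
      omega
    · refine (cross_mono (fun u hu hu2 => ?_)).trans c4
      by_cases hne : u = h
      · subst hne
        have := hs.occh.1
        simp only [if_true] at hu2
        omega
      · have := hs.occ u hne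
        simp only [hne, if_false] at hu2
        omega

theorem exists_split (T : ι → ℕ) (V : Finset ι) (M : ℕ) (h : ι × κ) (g : Fm K (ι × κ))
    (hg : g.occ h = 0) (hthin : ¬ Thin T V M (g.map Prod.fst)) :
    ∃ (Ψ : Fm K (ι × κ)) (o : Op) (a b : Fm K (ι × κ)), SplitAt T V M h g Ψ o a b := by
  induction g with
  | leaf i P => exact absurd trivial hthin
  | const c => exact absurd trivial hthin
  | node o f g ihf ihg =>
    have hf0 : f.occ h = 0 := by simp only [Fm.occ] at hg; omega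
    have hg0 : g.occ h = 0 := by simp only [Fm.occ] at hg; omega
    by_cases h1 : Thin T V M (f.map Prod.fst)
    · by_cases h2 : Thin T V M (g.map Prod.fst)
      · have h3 : ¬ (V.filter (Split T (f.map Prod.fst) (g.map Prod.fst))).card ≤ M :=
          fun h3 => hthin ⟨h1, h2, h3⟩
        refine ⟨.leaf h X, o, f, g, ?_⟩
        exact {
          affine := fun ρ => ⟨1, 0, fun ζ => by simp [Fm.eval]⟩
          occh := ⟨by simp [Fm.occ], hf0, hg0⟩
          occ := fun i hi => by simp [Fm.occ, Ne.symm hi]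
          occm := fun v hv => by simp [Fm.map, Fm.occ, Ne.symm hv]
          eval := fun q => by simp [Fm.eval]
          mu := fun ρ hρ => ⟨by simp [Fm.MU], hρ.1, hρ.2.1⟩
          mup := fun ρ hρ => by
            refine ⟨by simp [Fm.MUp], ?_⟩
            rcases hρ with hρ | hρ
            · exact ⟨hρ.1, hρ.2.1.mup⟩
            · exact ⟨hρ.2.1.mup, hρ.1⟩
          card := by omega
          ct := fun T' c hc => ⟨trivial, hc.1, hc.2.1, hc.2.2.1, hc.2.2.2⟩ }
      · obtain ⟨Ψ, o', a, b, hs⟩ := ihg hg0 h2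
        exact ⟨_, _, _, _, hs.right hf0 o⟩
    · obtain ⟨Ψ, o', a, b, hs⟩ := ihf hf0 h1
      exact ⟨_, _, _, _, hs.left hg0 o⟩

end Pool.Agent.RK
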