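import Mathlib
import Pool.Agent.Work.RK.Cross

/-!
# The regularisation theorem for identifications of thin formulas
-/

set_option autoImplicit false

namespace Pool.Agent.RK

open Function Polynomial

variable {K : Type} [Field K] {ι κ : Type} [DecidableEq ι] [DecidableEq κ]

omit [DecidableEq ι] [DecidableEq κ] in
theorem encard_le_of_insert {k : ℕ} {S P : Set (ι × κ)} {x : ι × κ} (hx : x ∉ S)
    (hxP : x ∈ P) (hSP : S ⊆ P) (hP : P.encard ≤ (k + 1 : ℕ)) : S.encard ≤ k := by
  have h1 : (insert x S).encard ≤ (k + 1 : ℕ) :=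
    (Set.encard_le_encard (Set.insert_subset hxP hSP)).trans hP
  rw [Set.encard_insert_of_notMem hx] at h1
  push_cast at h1
  exact (ENat.add_le_add_iff_right ENat.one_ne_top).1 h1

theorem SplitAt.pset_le {T : ι → ℕ} {V : Finset ι} {M k : ℕ} {h : ι × κ} {g Ψ : Fm K (ι × κ)}
    {o : Op} {a b : Fm K (ι × κ)} (hs : SplitAt T V M h g Ψ o a b) {v : ι} (hv : v ≠ h.1)
    (hT : T v = (g.map Prod.fst).occ v) (hk : (Pset g v).encard ≤ (k + 1 : ℕ))
    (hsp : Split T (a.map Prod.fst) (b.map Prod.fst) v)
    (hxa : ∀ u ∈ cross (fun i => g.occ i) a, u.1 ≠ v)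
    (hxb : ∀ u ∈ cross (fun i => g.occ i) b, u.1 ≠ v) :
    (Pset Ψ v).encard ≤ k ∧ (Pset a v).encard ≤ k ∧ (Pset b v).encard ≤ k := by
  have hocc : ∀ u : ι × κ, u.1 = v → Ψ.occ u + a.occ u + b.occ u = g.occ u :=
    fun u hu => hs.occ u (fun e => hv (by rw [← hu, e]))
  have s1 : Pset Ψ v ⊆ Pset g v := fun u hu => ⟨hu.1, by have := hocc u hu.1; have := hu.2; omega⟩
  have s2 : Pset a v ⊆ Pset g v := fun u hu => ⟨hu.1, by have := hocc u hu.1; have := hu.2; omega⟩
  have s3 : Pset b v ⊆ Pset g v := fun u hu => ⟨hu.1, by have := hocc u hu.1; have := hu.2; omega⟩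
  have d12 : ∀ u, u ∈ Pset Ψ v → u ∉ Pset a v := by
    intro u hu hu'
    have h1 := hocc u hu.1
    exact hxa u ⟨hu'.2, by have := hu.2; dsimp only; omega⟩ hu.1
  have d13 : ∀ u, u ∈ Pset Ψ v → u ∉ Pset b v := by
    intro u hu hu'
    have h1 := hocc u hu.1
    exact hxb u ⟨hu'.2, by have := hu.2; dsimp only; omega⟩ hu.1
  have d23 : ∀ u, u ∈ Pset a v → u ∉ Pset b v := by
    intro u hu hu'
    have h1 := hocc u hu.1
    exact hxb u ⟨hu'.2, by have := hu.2; dsimp only; omega⟩ hu.1
  have hm := hs.occm v hv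
  have ea : 0 < (a.map Prod.fst).occ v → ∃ u, u ∈ Pset a v := fun h => Fm.map_occ_pos.1 h
  have eb : 0 < (b.map Prod.fst).occ v → ∃ u, u ∈ Pset b v := fun h => Fm.map_occ_pos.1 h
  have eΨ : 0 < (Ψ.map Prod.fst).occ v → ∃ u, u ∈ Pset Ψ v := fun h => Fm.map_occ_pos.1 h
  rcases hsp with ⟨p1, p2⟩ | ⟨p1, p2⟩ | ⟨p1, p2⟩
  · obtain ⟨x, hx⟩ := ea p1
    obtain ⟨y, hy⟩ := eb p2
    exact ⟨encard_le_of_insert (fun h => d12 x h hx) (s2 hx) s1 hk,
      encard_le_of_insert (fun h => d23 y h hy) (s3 hy) s2 hk,
      encard_le_of_insert (fun h => d23 x hx h) (s2 hx) s3 hk⟩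
  · obtain ⟨x, hx⟩ := ea p1
    obtain ⟨y, hy⟩ := eΨ (by omega)
    exact ⟨encard_le_of_insert (fun h => d12 x h hx) (s2 hx) s1 hk,
      encard_le_of_insert (fun h => d12 y hy h) (s1 hy) s2 hk,
      encard_le_of_insert (fun h => d23 x hx h) (s2 hx) s3 hk⟩
  · obtain ⟨x, hx⟩ := eb p1
    obtain ⟨y, hy⟩ := eΨ (by omega)
    exact ⟨encard_le_of_insert (fun h => d13 x h hx) (s3 hx) s1 hk,
      encard_le_of_insert (fun h => d23 x h hx) (s3 hx) s2 hk,
      encard_le_of_insert (fun h => d13 y hy h) (s1 hy) s3 hk⟩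

/-- The size of the matrices in the regularisation theorem. -/
def regW : ℕ → ℕ
  | 0 => 1
  | k + 1 => (2 * (regW k * regW k) + 1) * regW k + (2 * (regW k * regW k) + 1) * regW k

/-- The number of variables in the regularisation theorem. -/
def regN (c : ℕ) : ℕ → ℕ → ℕ
  | 0, s => s
  | k + 1, s => s + beta (regN c k (regN c k (regN c k s)) + 2 * c) (2 ^ (s + s)) + 1

theorem one_le_regW (k : ℕ) : 1 ≤ regW k := by
  induction k with
  | zero => exact le_refl _
  | succ k ih => unfold regW; nlinarith

/-- **Regularisation** of formulas which arise from a formula each of whose subformulas shares at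
most `c` variables with the rest by identifications of at most `k` variables. -/
theorem reg [Infinite K] [Infinite ι] [Nonempty κ] (c k : ℕ) : ∀ s : ℕ,
    ∀ (Φ : Fm K (ι × κ)) (V : List ι), V.Nodup → regN c k s ≤ V.length →
      (∀ v ∈ V, (Pset Φ v).encard ≤ k) → CT (fun i => Φ.occ i) c Φ →
      ∃ L : List ι, L.Sublist V ∧ L.length = s ∧
        ∀ ρ : ι → K, (Φ.map Prod.fst).MUp ρ →
          Rep (regW k) L ρ (fun q => (Φ.map Prod.fst).eval q) := by
  induction k with
  | zero =>
    intro s Φ V hV hlen hocc _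
    obtain ⟨L, h1, h2, h3⟩ := reg_zero (s := s) (Φ := Φ.map Prod.fst) (V := V) (by
      rw [List.filter_eq_self.2]
      · exact hlen
      · intro i hi
        have h1 := hocc i hi
        have h2 : Pset Φ i = ∅ := by
          rw [← Set.encard_eq_zero]
          exact le_antisymm h1 bot_le
        have h3 : (Φ.map Prod.fst).occ i = 0 := by
          by_contra hne
          obtain ⟨u, hu⟩ := Fm.map_occ_pos.1 (Nat.pos_of_ne_zero hne)
          have : u ∈ Pset Φ i := hu
          rw [h2] at this
          exact this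
        simpa using h3)
    exact ⟨L, h1, h2, fun ρ _ => h3 ρ⟩
  | succ k hN =>
    intro s Φ V hV hlen hocc hct
    have hW := one_le_regW k
    rw [regN] at hlen
    rw [regW]
    set W := regW k with hWdef
    set N := regN c k with hNdef
    set W1 := 2 * (W * W) + 1 with hW1
    set M := N (N (N s)) + 2 * c with hM
    by_cases hz : s ≤ (V.filter (fun i => decide ((Φ.map Prod.fst).occ i = 0))).length
    · obtain ⟨L, h1, h2, h3⟩ := reg_zero hz
      exact ⟨L, h1, h2, fun ρ _ => (h3 ρ).mono (by nlinarith)⟩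
    push Not at hz
    set V' := V.filter (fun i => !decide ((Φ.map Prod.fst).occ i = 0)) with hV'
    have hsubV : V'.Sublist V := List.filter_sublist
    have hlen' : beta M (2 ^ (s + s)) < V'.length := by
      have h1 := List.length_eq_length_filter_add (l := V)
        (fun i => decide ((Φ.map Prod.fst).occ i = 0))
      change V.length = _ + V'.length at h1
      omega
    have hpos : ∀ i ∈ V', 0 < (Φ.map Prod.fst).occ i := by
      intro i hi
      have := (List.mem_filter.1 hi).2
      simp only [Bool.not_eq_true', decide_eq_false_iff_not] at this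
      omega
    by_cases hthin : Thin (fun i => (Φ.map Prod.fst).occ i) V'.toFinset M (Φ.map Prod.fst)
    · obtain ⟨L, h1, h2, h3⟩ := reg_thin (hsubV.nodup hV) hpos hlen' hthin
      refine ⟨L, h1.trans hsubV, h2, fun ρ hρ => (h3 ρ hρ).mono ?_⟩
      have h4 : 3 ≤ W1 := by nlinarith
      nlinarith
    · -- a fresh variable
      obtain ⟨supp, hsupp⟩ := (Φ.map Prod.fst).finite_occ
      obtain ⟨h1, hh1⟩ := Infinite.exists_notMem_finset (supp ∪ V.toFinset)
      rw [Finset.notMem_union, List.mem_toFinset] at hh1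
      have hfresh : ∀ u : ι × κ, u.1 = h1 → Φ.occ u = 0 := by
        intro u hu
        by_contra hne
        have h2 : 0 < (Φ.map Prod.fst).occ h1 := Fm.map_occ_pos.2 ⟨u, hu, Nat.pos_of_ne_zero hne⟩
        have h3 := hsupp h1 hh1.1
        omega
      obtain ⟨x0⟩ := (inferInstance : Nonempty κ)
      set h : ι × κ := (h1, x0) with hh
      obtain ⟨Ψ, o, a, b, hs⟩ := exists_split (fun i => (Φ.map Prod.fst).occ i) V'.toFinset M h Φ
        (hfresh h rfl) hthin
      -- the exceptional variables
      obtain ⟨ctΨ, cta, ctb, xa, xb⟩ := hs.ct (fun i => Φ.occ i) c hct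
      have fa : (cross (fun i => Φ.occ i) a).Finite :=
        Set.finite_of_encard_le_coe xa
      have fb : (cross (fun i => Φ.occ i) b).Finite :=
        Set.finite_of_encard_le_coe xb
      set X : Finset ι := (fa.toFinset ∪ fb.toFinset).image Prod.fst with hX
      have hXcard : X.card ≤ 2 * c := by
        have e1 : fa.toFinset.card ≤ c := by
          rw [fa.encard_eq_coe_toFinset_card] at xa
          exact_mod_cast xa
        have e2 : fb.toFinset.card ≤ c := by
          rw [fb.encard_eq_coe_toFinset_card] at xb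
          exact_mod_cast xb
        have e3 := Finset.card_union_le fa.toFinset fb.toFinset
        have e4 : X.card ≤ (fa.toFinset ∪ fb.toFinset).card := Finset.card_image_le
        omega
      set V1 := V'.filter (fun i => decide (Split (fun i => (Φ.map Prod.fst).occ i)
        (a.map Prod.fst) (b.map Prod.fst) i)) with hV1
      set V0 := V1.filter (fun i => !decide (i ∈ X)) with hV0
      have hsub1 : V1.Sublist V := List.filter_sublist.trans hsubV
      have hsub0 : V0.Sublist V := List.filter_sublist.trans hsub1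
      have hlen0 : N (N (N s)) ≤ V0.length := by
        have h5 : V'.toFinset.filter (Split (fun i => (Φ.map Prod.fst).occ i)
            (a.map Prod.fst) (b.map Prod.fst)) = V1.toFinset := by
          ext i
          simp [hV1]
        have k5 := hs.card
        rw [h5, List.toFinset_card_of_nodup (hsub1.nodup hV)] at k5
        have h6 := List.length_eq_length_filter_add (l := V1) (fun i => decide (i ∈ X))
        change V1.length = _ + V0.length at h6
        have h7 : (V1.filter (fun i => decide (i ∈ X))).length ≤ X.card := by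
          rw [← List.toFinset_card_of_nodup ((hsub1.nodup hV).filter _)]
          refine Finset.card_le_card (fun i hi => ?_)
          rw [List.mem_toFinset, List.mem_filter] at hi
          simpa using hi.2
        omega
      have hne0 : ∀ i ∈ V0, i ≠ h1 := by
        rintro i hi rfl
        exact hh1.2 (hsub0.subset hi)
      have hX0 : ∀ i ∈ V0, i ∉ X := by
        intro i hi
        have := (List.mem_filter.1 hi).2
        simpa using this
      have hocc0 : ∀ i ∈ V0, (Pset Ψ i).encard ≤ k ∧ (Pset a i).encard ≤ k ∧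
          (Pset b i).encard ≤ k := by
        intro i hi
        refine hs.pset_le (hne0 i hi) rfl (hocc i (hsub0.subset hi)) ?_ ?_ ?_
        · have h8 := (List.mem_filter.1 ((List.filter_sublist (l := V1)).subset hi)).2
          simpa using h8
        · rintro u hu rfl
          refine hX0 u.1 hi ?_
          rw [hX, Finset.mem_image]
          exact ⟨u, Finset.mem_union_left _ (fa.mem_toFinset.2 hu), rfl⟩
        · rintro u hu rfl
          refine hX0 u.1 hi ?_
          rw [hX, Finset.mem_image]
          exact ⟨u, Finset.mem_union_right _ (fb.mem_toFinset.2 hu), rfl⟩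
      have hleocc : ∀ u, Ψ.occ u = (if u = h then 1 else Φ.occ u - (a.occ u + b.occ u)) ∧
          a.occ u ≤ Φ.occ u ∧ b.occ u ≤ Φ.occ u := by
        intro u
        by_cases hu : u = h
        · subst hu
          obtain ⟨o1, o2, o3⟩ := hs.occh
          rw [if_pos rfl]
          omega
        · have := hs.occ u hu
          rw [if_neg hu]
          omega
      have cta' : CT (fun i => a.occ i) c a := cta.mono (fun u _ => (hleocc u).2.1)
      have ctb' : CT (fun i => b.occ i) c b := ctb.mono (fun u _ => (hleocc u).2.2)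
      have ctΨ' : CT (fun i => Ψ.occ i) c Ψ := ctΨ.mono (fun u _ => (hleocc u).1.le)
      have hnd0 := hsub0.nodup hV
      obtain ⟨L1, a1, a2, a3⟩ := hN (N (N s)) a V0 hnd0 hlen0 (fun i hi => (hocc0 i hi).2.1) cta'
      obtain ⟨L2, b1, b2, b3⟩ := hN (N s) b L1 (a1.nodup hnd0) a2.ge
        (fun i hi => (hocc0 i (a1.subset hi)).2.2) ctb'
      obtain ⟨L3, c1, c2, c3⟩ := hN s Ψ L2 (b1.nodup (a1.nodup hnd0)) b2.ge
        (fun i hi => (hocc0 i (a1.subset (b1.subset hi))).1) ctΨ'
      have hL3 : L3.Sublist V := ((c1.trans b1).trans a1).trans hsub0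
      refine ⟨L3, hL3, c2, fun ρ hρ => ?_⟩
      rw [Fm.MUp_map] at hρ
      obtain ⟨m1, m2, m3⟩ := hs.mup _ hρ
      rw [← Fm.MUp_map] at m2 m3
      have ra : Rep W L3 ρ (fun q => (a.map Prod.fst).eval q) :=
        (a3 ρ m2).sublist (a1.nodup hnd0) (c1.trans b1)
      have rb : Rep W L3 ρ (fun q => (b.map Prod.fst).eval q) :=
        (b3 ρ m3).sublist (b1.nodup (a1.nodup hnd0)) c1
      have rG : Rep (2 * (W * W)) L3 ρ
        (fun q => o.app ((a.map Prod.fst).eval q) ((b.map Prod.fst).eval q)) := ra.app hW rb o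
      -- `Ψ` does not contain other labels over `h1`
      have hΨ : ∀ (q : ι → K) (ζ : K) (i : ι × κ), Ψ.occ i ≠ 0 →
          update (fun i : ι × κ => q i.1) h ζ i = update q h1 ζ i.1 := by
        intro q ζ i hi
        by_cases hih : i = h
        · subst hih
          rw [update_self, hh, update_self]
        · rw [update_of_ne hih]
          have h6 : i.1 ≠ h1 := by
            intro e
            have h7 := hfresh i e
            have h8 := hs.occ i hih
            omega
          rw [update_of_ne h6]
      have hΨe : ∀ (q : ι → K) (ζ : K), Ψ.eval (update (fun i : ι × κ => q i.1) h ζ) =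
          (Ψ.map Prod.fst).eval (update q h1 ζ) := by
        intro q ζ
        rw [Fm.eval_map]
        exact Ψ.eval_congr (hΨ q ζ)
      -- good values of the gate
      classical
      obtain ⟨ζ1, hζ1⟩ := m1.toFinset.exists_notMem
      obtain ⟨ζ2, hζ2⟩ := (m1.toFinset ∪ {ζ1}).exists_notMem
      rw [Finset.notMem_union, Finset.mem_singleton] at hζ2
      have g1 : Ψ.MUp (update (fun i : ι × κ => ρ i.1) h ζ1) := by
        by_contra hc
        exact hζ1 (m1.mem_toFinset.2 hc)
      have g2 : Ψ.MUp (update (fun i : ι × κ => ρ i.1) h ζ2) := by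
        by_contra hc
        exact hζ2.1 (m1.mem_toFinset.2 hc)
      have hhL3 : h1 ∉ L3 := fun h' => hh1.2 (hL3.subset h')
      have hF : ∀ ζ : K, Ψ.MUp (update (fun i : ι × κ => ρ i.1) h ζ) →
          Rep W L3 ρ (fun q => Ψ.eval (update (fun i : ι × κ => q i.1) h ζ)) := by
        intro ζ hζ
        have hζ' : (Ψ.map Prod.fst).MUp (update ρ h1 ζ) := by
          rw [Fm.MUp_map]
          exact Ψ.MUp_congr (hΨ ρ ζ) hζ
        obtain ⟨T, i1, i2, Nm, u, v, e1, e2, e3⟩ := c3 _ hζ'
        refine ⟨T, i1, i2, Nm, u, v, e1, fun i hi => ?_, fun q hq => ?_⟩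
        · have hne : i ≠ h1 := fun e => hhL3 (e ▸ hi)
          have := e2 i hi
          rwa [update_of_ne hne] at this
        · have e4 := e3 (update q h1 ζ) (fun i hi => by
            by_cases hih : i = h1
            · subst hih; simp
            · rw [update_of_ne hih, update_of_ne hih]
              exact hq i hi)
          dsimp only at e4 ⊢
          rw [hΨe, e4]
          congr 3
          refine List.map_congr_left (fun i hi => ?_)
          have hne : i ≠ h1 := fun e => hhL3 (e ▸ hi)
          rw [update_of_ne hne]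
      have hne : ζ1 - ζ2 ≠ 0 := sub_ne_zero.2 (fun e => hζ2.2 e.symm)
      have hfinal := (((rG.sub (Rep.const ζ2)).mul (hF ζ1 g1)).sub
        ((rG.sub (Rep.const ζ1)).mul (hF ζ2 g2))).smul (1 / (ζ1 - ζ2))
      refine hfinal.congr (fun q hq => ?_)
      obtain ⟨A, B, hAB⟩ := hs.affine (fun i => q i.1)
      rw [Fm.eval_map, hs.eval, hAB, hAB, hAB, Fm.eval_map, Fm.eval_map]
      field_simp
      ring

end Pool.Agent.RK
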