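import Mathlib
import Pool.Agent.Work.RK.RegMain

/-!
# The local search theorem
-/

set_option autoImplicit false

namespace Pool.Agent.RK

open Function Polynomial

variable {K : Type} [Field K] {ι κ : Type}

/-- A formula vanishes identically on the slice through `ρ` in the directions `A`, or is nonzero at
`ρ`. -/
def Good (A : Set ι) (ρ : ι → K) (g : Fm K ι) : Prop :=
  (∀ q : ι → K, (∀ i, i ∉ A → q i = ρ i) → g.eval q = 0) ∨ g.eval ρ ≠ 0

/-- All proper subformulas are good. -/
def AllGood (A : Set ι) (ρ : ι → K) : Fm K ι → Prop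
  | .leaf _ _ => True
  | .const _ => True
  | .node _ a b => Good A ρ a ∧ Good A ρ b ∧ AllGood A ρ a ∧ AllGood A ρ b

/-- All subformulas are good except possibly those on a path from the root to a leaf. -/
def PathGood (A : Set ι) (ρ : ι → K) : Fm K ι → Prop
  | .leaf _ _ => True
  | .const _ => True
  | .node _ a b => (PathGood A ρ a ∧ Good A ρ b ∧ AllGood A ρ b) ∨
      (PathGood A ρ b ∧ Good A ρ a ∧ AllGood A ρ a)

theorem AllGood.path {A : Set ι} {ρ : ι → K} {g : Fm K ι} (h : AllGood A ρ g) :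
    PathGood A ρ g := by
  induction g with
  | leaf i P => trivial
  | const c => trivial
  | node o a b iha ihb => exact Or.inl ⟨iha h.2.2.1, h.2.1, h.2.2.2⟩

variable [DecidableEq ι] [DecidableEq κ]

/-- The relation between a formula and a pruned version. -/
structure Pruned (A : Set ι) (ρ : ι → K) (g g' : Fm K (ι × κ)) : Prop where
  occ : ∀ i, g'.occ i ≤ g.occ i
  eval : ∀ q : ι → K, (∀ i, i ∉ A → q i = ρ i) →
    (g'.map Prod.fst).eval q = (g.map Prod.fst).eval q
  ct : ∀ (T T' : ι × κ → ℕ) (c : ℕ), (∀ i, 0 < g'.occ i → T' i + g.occ i ≤ T i + g'.occ i) →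
    CT T c g → CT T' c g'

theorem Pruned.const {A : Set ι} {ρ : ι → K} {g : Fm K (ι × κ)}
    (h : ∀ q : ι → K, (∀ i, i ∉ A → q i = ρ i) → (g.map Prod.fst).eval q = 0) :
    Pruned A ρ g (.const 0) where
  occ := fun _ => Nat.zero_le _
  eval := fun q hq => (h q hq).symm
  ct := fun _ _ _ _ _ => trivial

theorem Pruned.refl {A : Set ι} {ρ : ι → K} (g : Fm K (ι × κ)) : Pruned A ρ g g where
  occ := fun _ => le_refl _
  eval := fun _ _ => rfl
  ct := fun T T' c h hg => hg.mono (fun i hi => by have := h i hi; omega)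

theorem Pruned.node {A : Set ι} {ρ : ι → K} {a b a' b' : Fm K (ι × κ)} (ha : Pruned A ρ a a')
    (hb : Pruned A ρ b b') (o : Op) : Pruned A ρ (.node o a b) (.node o a' b') where
  occ := fun i => by
    have := ha.occ i
    have := hb.occ i
    simp only [Fm.occ]
    omega
  eval := fun q hq => by
    simp only [Fm.map, Fm.eval]
    rw [ha.eval q hq, hb.eval q hq]
  ct := by
    rintro T T' c h ⟨c1, c2, c3, c4⟩
    have h1 : ∀ i, 0 < a'.occ i ∨ 0 < b'.occ i →
        T' i + (a.occ i + b.occ i) ≤ T i + (a'.occ i + b'.occ i) := by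
      intro i hi
      have := h i (by simp only [Fm.occ]; omega)
      simpa only [Fm.occ] using this
    refine ⟨ha.ct T T' c (fun i hi => ?_) c1, hb.ct T T' c (fun i hi => ?_) c2, ?_, ?_⟩
    · have := h1 i (Or.inl hi)
      have := hb.occ i
      omega
    · have := h1 i (Or.inr hi)
      have := ha.occ i
      omega
    · refine (cross_mono (fun u hu hu2 => ?_)).trans c3
      have := h1 u (Or.inl hu)
      have := hb.occ u
      have := ha.occ u
      omega
    · refine (cross_mono (fun u hu hu2 => ?_)).trans c4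
      have := h1 u (Or.inr hu)
      have := hb.occ u
      have := ha.occ u
      omega

theorem exists_prune {A : Set ι} {ρ : ι → K} (g : Fm K (ι × κ))
    (hg : AllGood A ρ (g.map Prod.fst)) :
    ∃ g' : Fm K (ι × κ), Pruned A ρ g g' ∧ (g'.map Prod.fst).MU ρ := by
  induction g with
  | leaf i P => exact ⟨.leaf i P, Pruned.refl _, trivial⟩
  | const c => exact ⟨.const c, Pruned.refl _, trivial⟩
  | node o a b iha ihb =>
    obtain ⟨h1, h2, h3, h4⟩ := hg
    obtain ⟨a', a1, a3⟩ := iha h3
    obtain ⟨b', b1, b3⟩ := ihb h4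
    have hρ : ∀ i, i ∉ A → ρ i = ρ i := fun _ _ => rfl
    by_cases hz : o = .mul ∧ ((∀ q : ι → K, (∀ i, i ∉ A → q i = ρ i) →
        (a.map Prod.fst).eval q = 0) ∨
        (∀ q : ι → K, (∀ i, i ∉ A → q i = ρ i) → (b.map Prod.fst).eval q = 0))
    · refine ⟨.const 0, Pruned.const (fun q hq => ?_), trivial⟩
      obtain ⟨rfl, hz | hz⟩ := hz
      · simp [Fm.map, Fm.eval, Op.app, hz q hq]
      · simp [Fm.map, Fm.eval, Op.app, hz q hq]
    · refine ⟨.node o a' b', a1.node b1 o, a3, b3, fun ho => ?_⟩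
      push Not at hz
      have h5 := hz ho
      rw [a1.eval ρ hρ, b1.eval ρ hρ]
      constructor
      · rcases h1 with h1 | h1
        · exact absurd h1 (by push Not; exact h5.1)
        · exact h1
      · rcases h2 with h2 | h2
        · exact absurd h2 (by push Not; exact h5.2)
        · exact h2

theorem exists_prune_path {A : Set ι} {ρ : ι → K} (g : Fm K (ι × κ))
    (hg : PathGood A ρ (g.map Prod.fst)) :
    ∃ g' : Fm K (ι × κ), Pruned A ρ g g' ∧ (g'.map Prod.fst).MUp ρ := by
  have hρ : ∀ i, i ∉ A → ρ i = ρ i := fun _ _ => rfl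
  induction g with
  | leaf i P => exact ⟨.leaf i P, Pruned.refl _, trivial⟩
  | const c => exact ⟨.const c, Pruned.refl _, trivial⟩
  | node o a b iha ihb =>
    rcases hg with ⟨h1, h2, h3⟩ | ⟨h1, h2, h3⟩
    · obtain ⟨a', a1, a3⟩ := iha h1
      obtain ⟨b', b1, b3⟩ := exists_prune b h3
      by_cases hz : o = .mul ∧ (∀ q : ι → K, (∀ i, i ∉ A → q i = ρ i) →
          (b.map Prod.fst).eval q = 0)
      · refine ⟨.const 0, Pruned.const (fun q hq => ?_), trivial⟩
        obtain ⟨rfl, hz⟩ := hz
        simp [Fm.map, Fm.eval, Op.app, hz q hq]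
      · refine ⟨.node o a' b', a1.node b1 o, Or.inl ⟨a3, b3, fun ho => ?_⟩⟩
        rw [b1.eval ρ hρ]
        rcases h2 with h2 | h2
        · exact absurd ⟨ho, h2⟩ hz
        · exact h2
    · obtain ⟨b', b1, b3⟩ := ihb h1
      obtain ⟨a', a1, a3⟩ := exists_prune a h3
      by_cases hz : o = .mul ∧ (∀ q : ι → K, (∀ i, i ∉ A → q i = ρ i) →
          (a.map Prod.fst).eval q = 0)
      · refine ⟨.const 0, Pruned.const (fun q hq => ?_), trivial⟩
        obtain ⟨rfl, hz⟩ := hz
        simp [Fm.map, Fm.eval, Op.app, hz q hq]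
      · refine ⟨.node o a' b', a1.node b1 o, Or.inr ⟨b3, a3, fun ho => ?_⟩⟩
        rw [a1.eval ρ hρ]
        rcases h2 with h2 | h2
        · exact absurd ⟨ho, h2⟩ hz
        · exact h2

/-- The number of coordinates in the local search theorem. -/
def locW (k c : ℕ) : ℕ := regN c k (regW k)

/-- **The local search theorem.** If all subformulas of `Φ` not on some path from the root are
identically zero on the slice or nonzero at `ρ`, and `Φ` is not identically zero on the slice, then
`Φ` is nonzero at a point which differs from `ρ` in at most `w` coordinates. -/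
theorem local_search [Infinite K] [Infinite ι] [Nonempty κ] (k c : ℕ) (Φ : Fm K (ι × κ))
    (A : Set ι) (ρ : ι → K) (hocc : ∀ v ∈ A, (Pset Φ v).encard ≤ k)
    (hct : CT (fun i => Φ.occ i) c Φ) (hgood : PathGood A ρ (Φ.map Prod.fst))
    (hex : ∃ q : ι → K, (∀ i, i ∉ A → q i = ρ i) ∧ (Φ.map Prod.fst).eval q ≠ 0) :
    ∃ (q : ι → K) (D : Finset ι), D.card ≤ locW k c ∧ (∀ i ∈ D, i ∈ A) ∧
      (∀ i, i ∉ D → q i = ρ i) ∧ (Φ.map Prod.fst).eval q ≠ 0 := by
  classical
  have hN := reg (K := K) (ι := ι) (κ := κ) c k (regW k)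
  set W := regW k with hWdef
  have hlocW : locW k c = regN c k W := rfl
  rw [hlocW]
  set N := regN c k W with hNdef
  obtain ⟨g', hg, g3⟩ := exists_prune_path Φ hgood
  obtain ⟨q0, hq0, hq0'⟩ := hex
  rw [← hg.eval q0 hq0] at hq0'
  have hct' : CT (fun i => g'.occ i) c g' := hg.ct _ _ c (fun i _ => by omega) hct
  have hocc' : ∀ v ∈ A, (Pset g' v).encard ≤ k := by
    intro v hv
    have hsub : Pset g' v ⊆ Pset Φ v := fun u hu => ⟨hu.1, lt_of_lt_of_le hu.2 (hg.occ u)⟩
    exact (Set.encard_le_encard hsub).trans (hocc v hv)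
  set g : Fm K ι := g'.map Prod.fst with hgdef
  obtain ⟨S, hS⟩ := g.finite_occ
  have hne : ∃ n : ℕ, ∃ (D : Finset ι) (q : ι → K), D.card = n ∧ (∀ i ∈ D, i ∈ A) ∧
      (∀ i, i ∉ D → q i = ρ i) ∧ g.eval q ≠ 0 := by
    refine ⟨_, S.filter (fun i => i ∈ A), fun i => if i ∈ S then q0 i else ρ i, rfl,
      fun i hi => (Finset.mem_filter.1 hi).2, fun i hi => ?_, ?_⟩
    · by_cases hiS : i ∈ S
      · simp only [hiS, if_true]
        refine hq0 i (fun hiA => hi (Finset.mem_filter.2 ⟨hiS, hiA⟩))
      · simp only [hiS, if_false]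
    · have h1 : g.eval (fun i => if i ∈ S then q0 i else ρ i) = g.eval q0 := by
        refine g.eval_congr (fun i hi => ?_)
        have hiS : i ∈ S := by
          by_contra h
          exact hi (hS i h)
        simp only [hiS, if_true]
      rw [h1]
      exact hq0'
  obtain ⟨D, q, hD, hDA, hDq, hqne⟩ := Nat.find_spec hne
  have hmin : ∀ (D' : Finset ι) (q' : ι → K), (∀ i ∈ D', i ∈ A) → (∀ i, i ∉ D' → q' i = ρ i) →
      g.eval q' ≠ 0 → D.card ≤ D'.card := by
    intro D' q' h1 h2 h3
    rw [hD]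
    exact Nat.find_min' hne ⟨D', q', rfl, h1, h2, h3⟩
  refine ⟨q, D, ?_, hDA, hDq, ?_⟩
  · by_contra hcard
    push Not at hcard
    obtain ⟨L, hL1, hL2, hL3⟩ := hN g' D.toList D.nodup_toList (by
      rw [Finset.length_toList]; exact hcard.le)
      (fun i hi => hocc' i (hDA i (Finset.mem_toList.1 hi))) hct'
    have hLnd : L.Nodup := hL1.nodup D.nodup_toList
    have hLD : ∀ i ∈ L, i ∈ D := fun i hi => Finset.mem_toList.1 (hL1.subset hi)
    set bb : ι → K := fun i => if i ∈ L then 0 else q i - ρ i with hbb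
    set aa : ι → K := fun i => if i ∈ L then q i else ρ i with haa
    have e0 : (fun i => ρ i + (0 : K) * bb i) = ρ := by funext i; simp
    have e1 : (fun i => aa i + (1 : K) * bb i) = q := by
      funext i
      by_cases hi : i ∈ L <;> simp [haa, hbb, hi]
    have f1 := g.MUp_line_finite ρ bb (t0 := 0) (by rw [e0]; exact g3)
    have f2 := g.line_finite aa bb (t0 := 1) (by rw [e1]; exact hqne)
    obtain ⟨t, ht⟩ := (f1.union f2).toFinset.exists_notMem
    rw [Set.Finite.mem_toFinset, Set.mem_union, not_or] at ht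
    simp only [Set.mem_ofPred_eq, not_not] at ht
    have hrep := hL3 _ ht.1
    apply ht.2
    refine hrep.eq_zero hLnd hL2.ge (fun q' hq' hex => ?_) _ (fun i hi => ?_)
    · by_contra hne'
      obtain ⟨i, hi, hi2⟩ := hex
      have h5 := hmin (D.erase i) q' (fun j hj => hDA j (Finset.mem_of_mem_erase hj)) (fun j hj => by
        by_cases hji : j = i
        · rw [hji, hi2]
          simp [hbb, hi]
        · have hjD : j ∉ D := fun h => hj (Finset.mem_erase.2 ⟨hji, h⟩)
          have hjL : j ∉ L := fun h => hjD (hLD j h)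
          rw [hq' j hjL]
          simp [hbb, hDq j hjD]) hne'
      have h6 := Finset.card_erase_lt_of_mem (hLD i hi)
      omega
    · simp only [haa, hbb, hi, if_false]
  · rw [← hg.eval q (fun i hi => hDq i (fun h => hi (hDA i h)))]
    exact hqne

end Pool.Agent.RK
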