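import Mathlib
import Pool.Agent.Work.RK.Local

/-!
# Identifications of variables in thin formulas
-/

set_option autoImplicit false

namespace Pool.Agent.RK

open Function Polynomial

variable {K : Type} [Field K] {ι V : Type}

theorem Fm.self_mem_subs (g : Fm K ι) : g ∈ g.subs := by
  cases g <;> simp [Fm.subs]

variable [DecidableEq ι] [DecidableEq V]

theorem ct_of_subs {T : V → ℕ} {c : ℕ} {E : Fm K V}
    (h : ∀ g ∈ E.subs, (cross T g).encard ≤ c) : CT T c E := by
  induction E with
  | leaf i P => trivial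
  | const c => trivial
  | node o a b iha ihb =>
    refine ⟨iha (fun g hg => h g ?_), ihb (fun g hg => h g ?_), h a ?_, h b ?_⟩
    · rw [Fm.subs]; exact List.mem_cons_of_mem _ (List.mem_append_left _ hg)
    · rw [Fm.subs]; exact List.mem_cons_of_mem _ (List.mem_append_right _ hg)
    · rw [Fm.subs]; exact List.mem_cons_of_mem _ (List.mem_append_left _ a.self_mem_subs)
    · rw [Fm.subs]; exact List.mem_cons_of_mem _ (List.mem_append_right _ b.self_mem_subs)

theorem Fm.ThinC.ct {c : ℕ} {E : Fm K V} (h : E.ThinC c) : CT (fun u => E.occ u) c E :=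
  ct_of_subs h

/-- The formula with labels remembering the old names. -/
def col (φ : V → ι) (g : Fm K V) : Fm K (ι × V) := g.map (fun u => (φ u, u))

theorem col_map (φ : V → ι) (g : Fm K V) : (col φ g).map Prod.fst = g.map φ := by
  induction g with
  | leaf i P => rfl
  | const c => rfl
  | node o a b iha ihb =>
    have h1 : col φ (.node o a b) = .node o (col φ a) (col φ b) := rfl
    rw [h1, Fm.map, iha, ihb]
    rfl

theorem col_occ (φ : V → ι) (g : Fm K V) (x : ι × V) :
    (col φ g).occ x = if φ x.2 = x.1 then g.occ x.2 else 0 := by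
  induction g with
  | leaf i P =>
    obtain ⟨v, u⟩ := x
    simp only [col, Fm.map, Fm.occ, Prod.mk.injEq]
    by_cases h1 : i = u
    · subst h1
      by_cases h2 : φ i = v <;> simp [h2]
    · simp [h1]
  | const c => simp [col, Fm.map, Fm.occ]
  | node o a b iha ihb =>
    have h1 : col φ (.node o a b) = .node o (col φ a) (col φ b) := rfl
    rw [h1]
    simp only [Fm.occ]
    rw [iha, ihb]
    split_ifs <;> rfl

theorem ct_col {φ : V → ι} {c : ℕ} {T : V → ℕ} {g : Fm K V} (h : CT T c g) :
    CT (fun x : ι × V => if φ x.2 = x.1 then T x.2 else 0) c (col φ g) := by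
  have key : ∀ a : Fm K V, (cross (fun x : ι × V => if φ x.2 = x.1 then T x.2 else 0)
      (col φ a)).encard ≤ (cross T a).encard := by
    intro a
    refine le_trans (Set.encard_le_encard ?_) (Set.encard_image_le (fun u => (φ u, u)) _)
    rintro ⟨v, u⟩ ⟨h1, h2⟩
    rw [col_occ] at h1 h2
    dsimp only at h1 h2
    by_cases hv : φ u = v
    · rw [if_pos hv] at h1 h2
      rw [if_pos hv] at h2
      exact ⟨u, ⟨h1, h2⟩, by simp [hv]⟩
    · rw [if_neg hv] at h1
      omega
  induction g with
  | leaf i P => trivial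
  | const c => trivial
  | node o a b iha ihb =>
    exact ⟨iha h.1, ihb h.2.1, (key a).trans h.2.2.1, (key b).trans h.2.2.2⟩

/-- The local search theorem for identifications of variables. -/
theorem local_search_map [Infinite K] [Infinite ι] [Nonempty V] (k c : ℕ) (E : Fm K V) (φ : V → ι)
    (A : Set ι) (ρ : ι → K) (h1 : ∀ v ∈ A, Set.encard {u : V | φ u = v ∧ 0 < E.occ u} ≤ k)
    (h2 : CT (fun u => E.occ u) c E) (h3 : PathGood A ρ (E.map φ))
    (h4 : ∃ q : ι → K, (∀ i, i ∉ A → q i = ρ i) ∧ (E.map φ).eval q ≠ 0) :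
    ∃ (q : ι → K) (D : Finset ι), D.card ≤ locW k c ∧ (∀ i ∈ D, i ∈ A) ∧
      (∀ i, i ∉ D → q i = ρ i) ∧ (E.map φ).eval q ≠ 0 := by
  have h5 := local_search k c (col φ E) A ρ (fun v hv => ?_) ?_ (by rwa [col_map])
    (by rwa [col_map])
  · rwa [col_map] at h5
  · refine le_trans (Set.encard_le_encard ?_) ((Set.encard_image_le (fun u => (v, u)) _).trans
      (h1 v hv))
    rintro ⟨v', u⟩ ⟨e1, e2⟩
    rw [col_occ] at e2
    dsimp only at e1 e2
    subst e1
    by_cases hv' : φ u = v'
    · rw [if_pos hv'] at e2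
      exact ⟨u, ⟨hv', e2⟩, rfl⟩
    · rw [if_neg hv'] at e2
      omega
  · have h6 := ct_col (φ := φ) h2
    have e : (fun x : ι × V => if φ x.2 = x.1 then E.occ x.2 else 0) =
        fun x => (col φ E).occ x := by
      funext x
      rw [col_occ]
    rwa [e] at h6

end Pool.Agent.RK
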