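import Mathlib
import Pool.Agent.Work.MP_3c5c20_lc.Lang

/-!
# Identifications of variables in thin arithmetic expressions
-/

set_option autoImplicit false

namespace Pool.Agent.PIT

/-- The variables of an expression, one entry for each of their occurrences. -/
def Ex.vars : Ex → List Name
  | .var v => [v]
  | .const _ _ _ => []
  | .add a b => a.vars ++ b.vars
  | .sub a b => a.vars ++ b.vars
  | .mul a b => a.vars ++ b.vars

/-- All subexpressions of an expression, including the expression itself. -/
def Ex.subs : Ex → List Ex
  | .var v => [.var v]
  | .const neg num den => [.const neg num den]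
  | .add a b => .add a b :: (a.subs ++ b.subs)
  | .sub a b => .sub a b :: (a.subs ++ b.subs)
  | .mul a b => .mul a b :: (a.subs ++ b.subs)

/-- The expression in which every variable `u` is replaced by the variable `φ u`. -/
def Ex.rename (φ : Name → Name) : Ex → Ex
  | .var v => .var (φ v)
  | .const neg num den => .const neg num den
  | .add a b => .add (a.rename φ) (b.rename φ)
  | .sub a b => .sub (a.rename φ) (b.rename φ)
  | .mul a b => .mul (a.rename φ) (b.rename φ)

/-- Every subexpression of `G` has at most `c` variables in common with the rest of `G`, that is,
at most `c` variables occur both in this subexpression and outside of it. -/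
def Ex.Thin (c : ℕ) (G : Ex) : Prop :=
  ∀ g ∈ G.subs, Set.encard {u : Name | 0 < g.vars.count u ∧ g.vars.count u < G.vars.count u} ≤ c

/-- The strings which are arithmetic expressions that arise from `c`-thin expressions by
identifying variables, where at most `k` variables are identified with each other. -/
def ThinIdent (k c : ℕ) : Set (List Sy) :=
  {s | ∃ (G : Ex) (φ : Name → Name), G.Thin c ∧
    (∀ v : Name, Set.encard {u : Name | φ u = v ∧ u ∈ G.vars} ≤ k) ∧ Der 0 s (G.rename φ)}

end Pool.Agent.PIT
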