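import Mathlib
import Pool.Agent.Work.MP_3c5c20_lc.BRAlgPT
import Pool.Agent.Work.RK.Class
import Pool.Agent.Work.RK.ThinLang

/-!
# The local search algorithm for identifications of variables in thin expressions
-/

set_option autoImplicit false

namespace Pool.Agent.PIT.TH

open Function Pool.Agent.PIT.BR Pool.Agent.PT Turing

/-- The formula of an expression. -/
noncomputable def toFm : Ex → RK.Fm ℚ Name
  | .var v => .leaf v Polynomial.X
  | .const neg num den =>
    .const ((if neg then -(natOf num : ℚ) else (natOf num : ℚ)) / (natOf den : ℚ))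
  | .add a b => .node .add (toFm a) (toFm b)
  | .sub a b => .node .sub (toFm a) (toFm b)
  | .mul a b => .node .mul (toFm a) (toFm b)

theorem toFm_eval (q : Name → ℚ) (E : Ex) : (toFm E).eval q = E.val q := by
  induction E with
  | var v => simp [toFm, RK.Fm.eval, Ex.val]
  | const neg num den => simp [toFm, RK.Fm.eval, Ex.val]
  | add a b iha ihb => simp [toFm, RK.Fm.eval, Ex.val, iha, ihb, RK.Op.app]
  | sub a b iha ihb => simp [toFm, RK.Fm.eval, Ex.val, iha, ihb, RK.Op.app]
  | mul a b iha ihb => simp [toFm, RK.Fm.eval, Ex.val, iha, ihb, RK.Op.app]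

theorem toFm_occ (v : Name) (E : Ex) : (toFm E).occ v = E.vars.count v := by
  induction E with
  | var u =>
    simp only [toFm, RK.Fm.occ, Ex.vars, List.count_singleton]
    by_cases huv : u = v
    · simp [huv]
    · simp [huv]
  | const neg num den => simp [toFm, RK.Fm.occ, Ex.vars]
  | add a b iha ihb | sub a b iha ihb | mul a b iha ihb =>
    simp [toFm, RK.Fm.occ, Ex.vars, iha, ihb]

theorem toFm_rename (φ : Name → Name) (E : Ex) : (toFm E).map φ = toFm (E.rename φ) := by
  induction E with
  | var u => rfl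
  | const neg num den => rfl
  | add a b iha ihb | sub a b iha ihb | mul a b iha ihb =>
    simp [toFm, RK.Fm.map, Ex.rename, iha, ihb]

theorem toFm_subs (E : Ex) : (toFm E).subs = E.subs.map toFm := by
  induction E with
  | var u => rfl
  | const neg num den => rfl
  | add a b iha ihb | sub a b iha ihb | mul a b iha ihb =>
    simp [toFm, RK.Fm.subs, Ex.subs, iha, ihb]

theorem vars_eq_names (E : Ex) : E.vars = E.names := by
  induction E with
  | var u => rfl
  | const neg num den => rfl
  | add a b iha ihb | sub a b iha ihb | mul a b iha ihb =>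
    simp [Ex.vars, Ex.names, iha, ihb]

/-! ### The class of expressions -/

/-- Identifications of at most `k` variables at a time in `c`-thin expressions. -/
def Cls (k c : ℕ) (E : Ex) : Prop :=
  ∃ (G : Ex) (φ : Name → Name), G.Thin c ∧
    (∀ v : Name, Set.encard {u : Name | φ u = v ∧ u ∈ G.vars} ≤ k) ∧ E = G.rename φ

theorem Cls.of_sub {k c : ℕ} {G a b : Ex} {φ : Name → Name}
    (h1 : G.Thin c) (h2 : ∀ v : Name, Set.encard {u : Name | φ u = v ∧ u ∈ G.vars} ≤ k)
    (hs : ∀ g, g ∈ a.subs ∨ g ∈ b.subs → g ∈ G.subs) (hv : G.vars = a.vars ++ b.vars) :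
    Cls k c (a.rename φ) ∧ Cls k c (b.rename φ) := by
  constructor
  · refine ⟨a, φ, fun g hg => ?_, fun v => ?_, rfl⟩
    · refine (Set.encard_le_encard ?_).trans (h1 g (hs g (Or.inl hg)))
      rintro u ⟨e1, e2⟩
      refine ⟨e1, ?_⟩
      rw [hv, List.count_append]
      omega
    · refine (Set.encard_le_encard ?_).trans (h2 v)
      rintro u ⟨e1, e2⟩
      exact ⟨e1, by rw [hv]; exact List.mem_append_left _ e2⟩
  · refine ⟨b, φ, fun g hg => ?_, fun v => ?_, rfl⟩
    · refine (Set.encard_le_encard ?_).trans (h1 g (hs g (Or.inr hg)))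
      rintro u ⟨e1, e2⟩
      refine ⟨e1, ?_⟩
      rw [hv, List.count_append]
      omega
    · refine (Set.encard_le_encard ?_).trans (h2 v)
      rintro u ⟨e1, e2⟩
      exact ⟨e1, by rw [hv]; exact List.mem_append_right _ e2⟩

theorem Cls.add {k c : ℕ} {a b : Ex} (h : Cls k c (.add a b)) : Cls k c a ∧ Cls k c b := by
  obtain ⟨G, φ, h1, h2, h3⟩ := h
  cases G with
  | add a' b' =>
    simp only [Ex.rename, Ex.add.injEq] at h3
    rw [h3.1, h3.2]
    exact Cls.of_sub h1 h2 (by simp [Ex.subs]; tauto) rfl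
  | _ => simp [Ex.rename] at h3

theorem Cls.sub {k c : ℕ} {a b : Ex} (h : Cls k c (.sub a b)) : Cls k c a ∧ Cls k c b := by
  obtain ⟨G, φ, h1, h2, h3⟩ := h
  cases G with
  | sub a' b' =>
    simp only [Ex.rename, Ex.sub.injEq] at h3
    rw [h3.1, h3.2]
    exact Cls.of_sub h1 h2 (by simp [Ex.subs]; tauto) rfl
  | _ => simp [Ex.rename] at h3

theorem Cls.mul {k c : ℕ} {a b : Ex} (h : Cls k c (.mul a b)) : Cls k c a ∧ Cls k c b := by
  obtain ⟨G, φ, h1, h2, h3⟩ := h
  cases G with
  | mul a' b' =>
    simp only [Ex.rename, Ex.mul.injEq] at h3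
    rw [h3.1, h3.2]
    exact Cls.of_sub h1 h2 (by simp [Ex.subs]; tauto) rfl
  | _ => simp [Ex.rename] at h3

theorem Cls.at {k c : ℕ} {E g : Ex} {pre : List Tok} (h : Cls k c E) (hg : At E pre g) :
    Cls k c g := by
  induction hg with
  | root => exact h
  | addL _ ih => exact ih.add.1
  | addR _ ih => exact ih.add.2
  | subL _ ih => exact ih.sub.1
  | subR _ ih => exact ih.sub.2
  | mulL _ ih => exact ih.mul.1
  | mulR _ ih => exact ih.mul.2

/-- The local search property. -/
def LS' (k c w : ℕ) : Prop :=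
  ∀ (E : Ex) (A : Set Name) (ρ : Name → ℚ), Cls k c E → RK.AllGood A ρ (toFm E) →
    (∃ q : Name → ℚ, (∀ i, i ∉ A → q i = ρ i) ∧ E.val q ≠ 0) →
    ∃ (q : Name → ℚ) (D : Finset Name), D.card ≤ w ∧ (∀ i ∈ D, i ∈ A) ∧
      (∀ i, i ∉ D → q i = ρ i) ∧ E.val q ≠ 0

theorem exists_ls' (k c : ℕ) : ∃ w, LS' k c w := by
  refine ⟨RK.locW k c, fun E A ρ hE hall hex => ?_⟩
  obtain ⟨G, φ, h1, h2, rfl⟩ := hE
  have h3 := RK.local_search_map k c (toFm G) φ A ρ (fun v _ => ?_)
    (RK.ct_of_subs (fun g hg => ?_))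
    (by rw [toFm_rename]; exact hall.path) (by simpa only [toFm_rename, toFm_eval] using hex)
  · simpa only [toFm_rename, toFm_eval] using h3
  · refine (Set.encard_le_encard ?_).trans (h2 v)
    rintro u ⟨e1, e2⟩
    rw [toFm_occ] at e2
    exact ⟨e1, List.count_pos_iff.1 e2⟩
  · rw [toFm_subs, List.mem_map] at hg
    obtain ⟨g', hg', rfl⟩ := hg
    refine (Set.encard_le_encard ?_).trans (h1 g' hg')
    rintro u ⟨e1, e2⟩
    simp only [toFm_occ] at e1 e2
    exact ⟨e1, e2⟩

theorem good_toFm {A : Set Name} {ρ : Name → ℚ} {E : Ex} (h : GoodE A ρ E) :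
    RK.Good A ρ (toFm E) := by
  unfold RK.Good
  unfold GoodE at h
  simp only [toFm_eval]
  exact h

theorem allGood_toFm {A : Set Name} {ρ : Name → ℚ} {E : Ex} (h : SubGood A ρ E) :
    RK.AllGood A ρ (toFm E) := by
  induction E with
  | var v => trivial
  | const neg num den => trivial
  | add a b iha ihb | sub a b iha ihb | mul a b iha ihb =>
    exact ⟨good_toFm h.2.1.good, good_toFm h.2.2.good, iha h.2.1, ihb h.2.2⟩

theorem good_of_local {w : ℕ} {E : Ex} (hE : E.ok) {vs : List Name} {B b : ℕ}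
    (hB : (E.toks.length + 2) * E.size ≤ B) (hb : (B + 5) ^ 4 ≤ b) {p : Env}
    (hp : ∀ v, look p v ≤ B) (hmax : ∀ c ∈ cands vs B w p, better b E.toks p c = false) {g : Ex}
    {pre : List Tok} (hg : At E pre g)
    (hloc : (∃ q : Name → ℚ, (∀ i, i ∉ {v | v ∈ vs} → q i = (look p i : ℚ)) ∧ g.val q ≠ 0) →
      ∃ (q : Name → ℚ) (D : Finset Name), D.card ≤ w ∧ (∀ i ∈ D, i ∈ {v | v ∈ vs}) ∧
        (∀ i, i ∉ D → q i = (look p i : ℚ)) ∧ g.val q ≠ 0) :
    GoodE {v | v ∈ vs} (fun v => (look p v : ℚ)) g := by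
  by_contra hbad
  unfold GoodE at hbad
  rw [not_or, not_not] at hbad
  obtain ⟨h1, h2⟩ := hbad
  push Not at h1
  obtain ⟨q0, hq0, hq0'⟩ := h1
  obtain ⟨q, D, hD1, hD2, hD3, hD4⟩ := hloc ⟨q0, hq0, hq0'⟩
  have hEB : E.size ≤ B := by
    refine le_trans ?_ hB
    exact Nat.le_mul_of_pos_left _ (by omega)
  -- the gates which are nonzero at `p`
  set J := (List.range (E.toks.length + 1)).filter (fun j => nzP b p (E.toks.take j)) with hJ
  have hJ1 : ∀ j ∈ J, ∃ g' : Ex, (g'.ok ∧ g'.size ≤ E.size ∧
      g'.val (fun v => (look p v : ℚ)) ≠ 0) ∧ ∃ pre', E.toks.take j = pre' ++ g'.toks := by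
    intro j hj
    rw [hJ, List.mem_filter, List.mem_range] at hj
    have hj1 : 1 ≤ j := by
      by_contra h0
      obtain rfl : j = 0 := by omega
      have h3 := hj.2
      unfold nzP at h3
      rw [List.any_eq_true] at h3
      obtain ⟨r, _, hr⟩ := h3
      simp [evalT] at hr
    obtain ⟨pre', g', h3, h4⟩ := at_take E E [] .root j hj1 (by omega)
    rw [List.nil_append] at h4
    refine ⟨g', ⟨h3.ok hE, h3.size, ?_⟩, pre', h4⟩
    have h5 := hj.2
    rw [h4, nzP_iff (h3.ok hE) (h3.size.trans hEB) hp hb] at h5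
    exact h5
  have : Inhabited Ex := ⟨.var []⟩
  choose! F hF1 hF2 using hJ1
  have hlen : J.length ≤ E.toks.length + 1 := by
    refine (List.length_filter_le _ _).trans ?_
    rw [List.length_range]
  have hsum : ((g :: J.map F).map Ex.size).sum ≤ B := by
    refine le_trans ?_ hB
    have h3 : ∀ x ∈ (g :: J.map F).map Ex.size, x ≤ E.size := by
      intro x hx
      obtain ⟨g', hg', rfl⟩ := List.mem_map.1 hx
      rcases List.mem_cons.1 hg' with rfl | hg'
      · exact hg.size
      · obtain ⟨j, hj, rfl⟩ := List.mem_map.1 hg'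
        exact (hF1 j hj).2.1
    have h4 := List.sum_le_card_nsmul _ _ h3
    rw [smul_eq_mul] at h4
    refine h4.trans (Nat.mul_le_mul_right _ ?_)
    simp only [List.length_map, List.length_cons]
    omega
  obtain ⟨p', e1, e2, e3⟩ := exists_move hsum (look p) D q hD3 (by
    intro g' hg'
    obtain ⟨j, hj, rfl⟩ := List.mem_map.1 hg'
    exact (hF1 j hj).2.2) hD4
  obtain ⟨c, hc, hc2⟩ := cands_complete w D p' hD1 hD2 e1 e2
  have hcb := (cands_bound hp hc).1
  have hbet : better b E.toks p c = true := by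
    unfold better
    rw [Bool.and_eq_true, List.all_eq_true, List.any_eq_true]
    constructor
    · intro j hj
      by_cases hn : nzP b p (E.toks.take j) = true
      · have hjJ : j ∈ J := by
          rw [hJ, List.mem_filter]
          exact ⟨hj, hn⟩
        obtain ⟨pre', h3⟩ := hF2 j hjJ
        have h4 : nzP b c (E.toks.take j) = true := by
          rw [h3, nzP_iff (hF1 j hjJ).1 ((hF1 j hjJ).2.1.trans hEB) hcb hb, hc2]
          exact e3 _ (List.mem_cons_of_mem _ (List.mem_map.2 ⟨j, hjJ, rfl⟩))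
        rw [h4]
        simp
      · simp [hn]
    · obtain ⟨post, hpost⟩ := hg.toks
      have htake : E.toks.take (pre ++ g.toks).length = pre ++ g.toks := by
        rw [hpost, ← List.append_assoc, List.take_left']
        rfl
      refine ⟨(pre ++ g.toks).length, ?_, ?_⟩
      · rw [List.mem_range, hpost]
        simp only [List.length_append]
        omega
      · rw [htake, Bool.and_eq_true, Bool.not_eq_true']
        constructor
        · rw [nzP_iff (hg.ok hE) (hg.size.trans hEB) hcb hb, hc2]
          exact e3 _ List.mem_cons_self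
        · rw [← Bool.not_eq_true, nzP_iff (hg.ok hE) (hg.size.trans hEB) hp hb, not_not]
          exact h2
  rw [hmax c hc] at hbet
  exact absurd hbet (by simp)

/-- **At a local maximum all subexpressions are good.** -/
theorem subGood_of_max {k c₀ w : ℕ} (hw : LS' k c₀ w) {E : Ex} (hE : E.ok) (hcls : Cls k c₀ E)
    {vs : List Name} {B b : ℕ} (hB : (E.toks.length + 2) * E.size ≤ B)
    (hb : (B + 5) ^ 4 ≤ b) {p : Env} (hp : ∀ v, look p v ≤ B)
    (hmax : ∀ c ∈ cands vs B w p, better b E.toks p c = false) (g : Ex) :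
    ∀ pre, At E pre g → SubGood {v | v ∈ vs} (fun v => (look p v : ℚ)) g := by
  have key : ∀ g pre, At E pre g → RK.AllGood {v | v ∈ vs} (fun v => (look p v : ℚ)) (toFm g) →
      GoodE {v | v ∈ vs} (fun v => (look p v : ℚ)) g := fun g pre hg hall =>
    good_of_local hE hB hb hp hmax hg (hw g _ _ (hcls.at hg) hall)
  induction g with
  | var v =>
    intro pre hg
    exact key _ _ hg trivial
  | const neg num den =>
    intro pre hg
    exact key _ _ hg trivial
  | add a b iha ihb =>
    intro pre hg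
    have h1 := iha _ hg.addL
    have h2 := ihb _ hg.addR
    exact ⟨key _ _ hg ⟨good_toFm h1.good, good_toFm h2.good, allGood_toFm h1, allGood_toFm h2⟩,
      h1, h2⟩
  | sub a b iha ihb =>
    intro pre hg
    have h1 := iha _ hg.subL
    have h2 := ihb _ hg.subR
    exact ⟨key _ _ hg ⟨good_toFm h1.good, good_toFm h2.good, allGood_toFm h1, allGood_toFm h2⟩,
      h1, h2⟩
  | mul a b iha ihb =>
    intro pre hg
    have h1 := iha _ hg.mulL
    have h2 := ihb _ hg.mulR
    exact ⟨key _ _ hg ⟨good_toFm h1.good, good_toFm h2.good, allGood_toFm h1, allGood_toFm h2⟩,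
      h1, h2⟩

/-! ### The whole algorithm -/

/-- The algorithm. -/
def answer (w : ℕ) (toks : List Tok) : Bool :=
  nzP (boundb toks) (climb w (boundb toks) (boundB toks) (dedupN (namesT toks)) toks []) toks

theorem answer_sound {w : ℕ} {E : Ex} (hE : E.ok) (h : answer w E.toks = true) : E.poly ≠ 0 :=
  poly_ne_zero_of_nzP hE h

theorem answer_complete {k c w : ℕ} (hw : LS' k c w) {E : Ex} (hE : E.ok) (hcls : Cls k c E)
    (hne : E.poly ≠ 0) : answer w E.toks = true := by
  obtain ⟨g, hg1, hg2⟩ := exists_nat_point hne E.totalDegree_poly_le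
  rw [Ex.eval_poly_val] at hg2
  have hB : (E.toks.length + 2) * E.size ≤ boundB E.toks := by
    unfold boundB
    rw [sizeT_toks]
    exact Nat.mul_le_mul_right _ (by have := toks_length_le E; omega)
  have hEB : E.size ≤ boundB E.toks :=
    le_trans (Nat.le_mul_of_pos_left _ (by omega)) hB
  obtain ⟨hb1, hb2⟩ := climb_bound (w := w) (b := boundb E.toks) (B := boundB E.toks)
    (vs := dedupN (namesT E.toks)) (toks := E.toks) (p := []) (fun v => by rw [look_nil]; omega)
  have hmax := climb_max w (boundb E.toks) (boundB E.toks) (dedupN (namesT E.toks)) E.toks []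
  unfold answer
  set r := climb w (boundb E.toks) (boundB E.toks) (dedupN (namesT E.toks)) E.toks [] with hr
  have hsub := subGood_of_max hw hE hcls hB (le_refl _) hb1 hmax E [] .root
  have hnz : nzP (boundb E.toks) r ([] ++ E.toks) = true := by
    rw [nzP_iff hE hEB hb1 (show (boundB E.toks + 5) ^ 4 ≤ boundb E.toks from le_refl _)]
    rcases hsub.good with h3 | h3
    · exfalso
      have h4 := h3 (fun v => if v ∈ E.names then (g v : ℚ) else (look r v : ℚ)) (fun v hv => by
        by_cases hvn : v ∈ E.names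
        · exfalso
          apply hv
          rw [Set.mem_ofPred_eq, (dedupN_spec _).2, namesT_toks]
          exact hvn
        · simp only [hvn, if_false])
      apply hg2
      rw [← h4]
      exact Ex.val_congr (fun v hv => by simp [hv])
    · exact h3
  rwa [List.nil_append] at hnz

theorem answer_ptf {α : Type} [Enc α] {toks : α → List Tok} (ht : PTF toks) (w : ℕ) :
    PTF (fun a => answer w (toks a)) := by
  unfold answer
  exact nzP_ptf (boundb_ptf ht) (climb_ptf w (boundb_ptf ht) (boundB_ptf ht)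
    (dedupN_ptf (namesT_ptf ht)) ht (PTF.const [])) ht

/-- The algorithm on strings. -/
def decideT (w : ℕ) (s : List Sy) : Bool :=
  match parse s with
  | none => false
  | some t => answer w t

theorem decideT_ptf (w : ℕ) : PTF (decideT w) := by
  refine (PTF.option_case (o := fun s : List Sy => parse s) (f := fun _ => false)
    (g := fun p : List Sy × List Tok => answer w p.2) (parse_ptf PTF.id) (PTF.const false)
    (answer_ptf PTF.snd w)).congr (fun s => ?_)
  unfold decideT
  cases parse s <;> rfl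

theorem decideT_sound {w : ℕ} {s : List Sy} (h : decideT w s = true) : s ∈ Nonzero := by
  unfold decideT at h
  cases hp : parse s with
  | none => rw [hp] at h; simp at h
  | some t =>
    rw [hp] at h
    obtain ⟨E, hE, rfl⟩ := der_of_parse hp
    exact ⟨E, hE, (npoly_ne_zero_iff hE).2 (answer_sound (der_ok hE) h)⟩

theorem decideT_complete {k c w : ℕ} (hw : LS' k c w) {s : List Sy} (h1 : s ∈ Nonzero)
    (h2 : s ∈ ThinIdent k c) : decideT w s = true := by
  obtain ⟨E, hE, hne⟩ := h1
  obtain ⟨G, φ, e1, e2, e3⟩ := h2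
  have hEG : E = G.rename φ := der_unique hE e3
  unfold decideT
  rw [parse_of_der hE]
  exact answer_complete hw (der_ok hE) ⟨G, φ, e1, e2, hEG⟩ ((npoly_ne_zero_iff hE).1 hne)

/-- A polynomial-time machine. -/
theorem exists_machine (w : ℕ) :
    Nonempty (TM2ComputableInPolyTime scode (fun b : Bool => [b]) (decideT w)) := by
  have h1 : PTF (fun l : List Bool => [decideT w (sdec l)]) :=
    ((decideT_ptf w).comp sdec_ptf).cons (PTF.const [])
  obtain ⟨M⟩ := h1.tm2_raw
  refine ⟨{ M with outputsFun := fun s => ?_ }⟩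
  have h2 := M.outputsFun (scode s)
  rw [sdec_scode] at h2
  exact h2

/-- **Main theorem.** -/
theorem main (k c : ℕ) : ∃ f : List Sy → Bool,
    Nonempty (TM2ComputableInPolyTime scode (fun b : Bool => [b]) f) ∧
    (∀ s, f s = true → s ∈ Nonzero) ∧ ∀ s ∈ ThinIdent k c, s ∈ Nonzero → f s = true := by
  obtain ⟨w, hw⟩ := exists_ls' k c
  exact ⟨decideT w, exists_machine w, fun s => decideT_sound,
    fun s hs h => decideT_complete hw h hs⟩

end Pool.Agent.PIT.TH
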