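import Mathlib
import Pool.Agent.Work.RK.ThinLang

/-!
# Expressions in which all but few variables are read few times
-/

set_option autoImplicit false

namespace Pool.Agent.PIT.TH

/-- A name with a number attached. -/
def tag (v : Name) (j : ℕ) : Name := List.replicate j false ++ true :: v

/-- Removal of the number. -/
def untag (l : Name) : Name := (l.dropWhile (fun b => !b)).tail

theorem untag_tag (v : Name) (j : ℕ) : untag (tag v j) = v := by
  unfold untag tag
  induction j with
  | zero => rfl
  | succ j ih => exact ih

theorem tag_inj {v v' : Name} {j j' : ℕ} (h : tag v j = tag v' j') : v = v' ∧ j = j' := by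
  have h1 : v = v' := by rw [← untag_tag v j, h, untag_tag]
  subst h1
  refine ⟨rfl, ?_⟩
  have h2 := congrArg List.length h
  simpa [tag] using h2

/-- The occurrences of the variables outside of `H` are numbered. -/
def spread (H : Name → Bool) : ℕ → Ex → Ex
  | o, .var v => .var (tag v (if H v then 0 else o + 1))
  | _, .const neg num den => .const neg num den
  | o, .add a b => .add (spread H o a) (spread H (o + a.vars.length) b)
  | o, .sub a b => .sub (spread H o a) (spread H (o + a.vars.length) b)
  | o, .mul a b => .mul (spread H o a) (spread H (o + a.vars.length) b)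

theorem spread_rename (H : Name → Bool) (E : Ex) : ∀ o, (spread H o E).rename untag = E := by
  induction E with
  | var v => intro o; simp [spread, Ex.rename, untag_tag]
  | const neg num den => intro o; rfl
  | add a b iha ihb | sub a b iha ihb | mul a b iha ihb =>
    intro o
    simp [spread, Ex.rename, iha, ihb]

/-- The variables of the spread expression. -/
def spreadL (H : Name → Bool) : ℕ → List Name → List Name
  | _, [] => []
  | o, v :: l => tag v (if H v then 0 else o + 1) :: spreadL H (o + 1) l

theorem spreadL_append (H : Name → Bool) (l m : List Name) : ∀ o,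
    spreadL H o (l ++ m) = spreadL H o l ++ spreadL H (o + l.length) m := by
  induction l with
  | nil => intro o; simp [spreadL]
  | cons v l ih =>
    intro o
    rw [List.cons_append, spreadL, ih, spreadL, List.cons_append, List.length_cons]
    congr 3
    omega

theorem spread_vars (H : Name → Bool) (E : Ex) : ∀ o,
    (spread H o E).vars = spreadL H o E.vars := by
  induction E with
  | var v => intro o; simp [spread, Ex.vars, spreadL]
  | const neg num den => intro o; simp [spread, Ex.vars, spreadL]
  | add a b iha ihb | sub a b iha ihb | mul a b iha ihb =>
    intro o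
    rw [spread, Ex.vars, iha, ihb, Ex.vars, spreadL_append]

theorem mem_spreadL {H : Name → Bool} {l : List Name} {u : Name} : ∀ {o : ℕ},
    u ∈ spreadL H o l → ∃ v ∈ l, (H v = true ∧ u = tag v 0) ∨
      (H v = false ∧ ∃ j, o < j ∧ u = tag v j) := by
  induction l with
  | nil => intro o h; simp [spreadL] at h
  | cons v l ih =>
    intro o h
    rw [spreadL, List.mem_cons] at h
    rcases h with rfl | h
    · refine ⟨v, List.mem_cons_self, ?_⟩
      cases hv : H v with
      | true => left; simp
      | false => right; exact ⟨rfl, o + 1, by omega, by simp⟩
    · obtain ⟨v', h1, h2⟩ := ih h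
      refine ⟨v', List.mem_cons_of_mem _ h1, ?_⟩
      rcases h2 with h2 | ⟨h2, j, h3, h4⟩
      · exact Or.inl h2
      · exact Or.inr ⟨h2, j, by omega, h4⟩

theorem count_spreadL {H : Name → Bool} {v : Name} (hv : H v = false) (j : ℕ) (l : List Name) :
    ∀ o, (spreadL H o l).count (tag v j) ≤ 1 := by
  induction l with
  | nil => intro o; simp [spreadL]
  | cons v' l ih =>
    intro o
    rw [spreadL]
    by_cases h1 : tag v' (if H v' = true then 0 else o + 1) = tag v j
    · obtain ⟨rfl, rfl⟩ := tag_inj h1
      rw [hv]
      simp only [Bool.false_eq_true, if_false]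
      rw [List.count_cons_self]
      have : (spreadL H (o + 1) l).count (tag v' (o + 1)) = 0 := by
        rw [List.count_eq_zero]
        intro hmem
        obtain ⟨v'', _, h3 | ⟨h3, j, h4, h5⟩⟩ := mem_spreadL hmem
        · have := (tag_inj h3.2).2
          omega
        · have := (tag_inj h5).2
          omega
      omega
    · rw [List.count_cons_of_ne h1]
      exact ih _

/-- The number of different variables which are mapped to `v`. -/
theorem encard_spreadL {H : Name → Bool} (v : Name) (l : List Name) : ∀ o,
    Set.encard {u : Name | untag u = v ∧ u ∈ spreadL H o l} ≤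
      if H v then 1 else (l.count v : ℕ∞) := by
  cases hv : H v with
  | true =>
    intro o
    simp only [if_true]
    refine (Set.encard_le_encard (t := {tag v 0}) ?_).trans (by simp)
    rintro u ⟨h1, h2⟩
    obtain ⟨v', _, h3 | ⟨h3, j, h4, h5⟩⟩ := mem_spreadL h2
    · rw [h3.2, untag_tag] at h1
      rw [h3.2, h1]
      rfl
    · rw [h5, untag_tag] at h1
      rw [h1, hv] at h3
      exact absurd h3 (by simp)
  | false =>
    simp only [Bool.false_eq_true, if_false]
    induction l with
    | nil => intro o; simp [spreadL]
    | cons v' l ih =>
      intro o
      by_cases hvv : v' = v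
      · subst hvv
        rw [List.count_cons_self]
        refine (Set.encard_le_encard (t := insert (tag v' (o + 1))
          {u : Name | untag u = v' ∧ u ∈ spreadL H (o + 1) l}) ?_).trans
          ((Set.encard_insert_le _ _).trans ?_)
        · rintro u ⟨h1, h2⟩
          rw [spreadL, List.mem_cons, hv] at h2
          rcases h2 with h2 | h2
          · left; simpa using h2
          · right; exact ⟨h1, h2⟩
        · push_cast
          gcongr
          exact ih _
      · rw [List.count_cons_of_ne hvv]
        refine (Set.encard_le_encard ?_).trans (ih (o + 1))
        rintro u ⟨h1, h2⟩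
        rw [spreadL, List.mem_cons] at h2
        rcases h2 with h2 | h2
        · rw [h2, untag_tag] at h1
          exact absurd h1 hvv
        · exact ⟨h1, h2⟩

/-- If all but at most `c` variables occur at most `k` times in an expression, then it arises from
a `c`-thin expression by identifying at most `k` variables at a time. -/
theorem thinIdent_of_count {k c : ℕ} (hk : 1 ≤ k) {s : List Sy} {E : Ex} (hs : Der 0 s E)
    (h : Set.encard {v : Name | k < E.vars.count v} ≤ c) : s ∈ ThinIdent k c := by
  classical
  set H : Name → Bool := fun v => decide (k < E.vars.count v) with hH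
  refine ⟨spread H 0 E, untag, fun g hg => ?_, fun v => ?_, by rwa [spread_rename]⟩
  · refine le_trans ?_ h
    refine (Set.encard_le_encard ?_).trans
      (Set.encard_image_le (fun v => tag v 0) {v : Name | k < E.vars.count v})
    rintro u ⟨h1, h2⟩
    rw [spread_vars] at h2
    have h3 : u ∈ spreadL H 0 E.vars := by
      rw [← List.count_pos_iff]
      omega
    obtain ⟨v, _, h4 | ⟨h4, j, h5, h6⟩⟩ := mem_spreadL h3
    · refine ⟨v, ?_, h4.2.symm⟩
      simpa [hH] using h4.1
    · rw [h6] at h1 h2
      have := count_spreadL h4 j E.vars 0
      omega
  · rw [spread_vars]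
    refine (encard_spreadL v E.vars 0).trans ?_
    cases hv : H v with
    | true =>
      simp only [if_true]
      exact_mod_cast hk
    | false =>
      simp only [Bool.false_eq_true, if_false]
      have : ¬ k < E.vars.count v := by simpa [hH] using hv
      exact_mod_cast not_lt.1 this

end Pool.Agent.PIT.TH
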