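import Mathlib
import Pool.Agent.Work.RK.Class

/-!
# Hitting sets for identifications of thin formulas
-/

set_option autoImplicit false

namespace Pool.Agent.RK

open Function Polynomial

variable {K : Type} [Field K]

/-! ### The generator -/

/-- The generator. -/
noncomputable def gp (n t : ℕ) (ps : ℕ → K × K) (i : ℕ) : K :=
  if i < n then ∑ l ∈ Finset.range t, (ps l).2 *
    ∏ j ∈ (Finset.range n).erase i, ((ps l).1 - (j : K)) else 0

theorem gp_of_le {n t : ℕ} {ps : ℕ → K × K} {i : ℕ} (h : n ≤ i) : gp n t ps i = 0 := by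
  unfold gp
  rw [if_neg (by omega)]

theorem gp_add (n t t' : ℕ) (ps : ℕ → K × K) (i : ℕ) :
    gp n (t + t') ps i = gp n t ps i + gp n t' (fun l => ps (t + l)) i := by
  unfold gp
  split_ifs
  · rw [Finset.sum_range_add]
  · simp

theorem gp_congr {n t : ℕ} {ps ps' : ℕ → K × K} (h : ∀ l < t, ps l = ps' l) (i : ℕ) :
    gp n t ps i = gp n t ps' i := by
  unfold gp
  split_ifs
  · exact Finset.sum_congr rfl (fun l hl => by rw [h l (Finset.mem_range.1 hl)])
  · rfl

theorem exists_gp [CharZero K] (n t : ℕ) : ∀ (D : Finset ℕ) (v : ℕ → K), D.card ≤ t →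
    (∀ i ∈ D, i < n) → (∀ i, i ∉ D → v i = 0) → ∃ ps : ℕ → K × K, ∀ i, gp n t ps i = v i := by
  induction t with
  | zero =>
    intro D v h1 h2 h3
    have hD : D = ∅ := Finset.card_eq_zero.1 (by omega)
    subst hD
    refine ⟨fun _ => (0, 0), fun i => ?_⟩
    rw [h3 i (by simp)]
    simp [gp]
  | succ t ih =>
    intro D v h1 h2 h3
    rcases D.eq_empty_or_nonempty with rfl | ⟨a, ha⟩
    · refine ⟨fun _ => (0, 0), fun i => ?_⟩
      rw [h3 i (by simp)]
      simp [gp]
    · obtain ⟨ps, hps⟩ := ih (D.erase a) (update v a 0)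
        (by rw [Finset.card_erase_of_mem ha]; omega)
        (fun i hi => h2 i (Finset.mem_of_mem_erase hi))
        (fun i hi => by
          by_cases hia : i = a
          · subst hia; simp
          · rw [update_of_ne hia]
            exact h3 i (fun h => hi (Finset.mem_erase.2 ⟨hia, h⟩)))
      set P : K := ∏ j ∈ (Finset.range n).erase a, ((a : K) - (j : K)) with hP
      have hP0 : P ≠ 0 := by
        rw [hP, Finset.prod_ne_zero_iff]
        intro j hj
        rw [sub_ne_zero]
        intro h
        exact (Finset.ne_of_mem_erase hj) (Nat.cast_injective h).symm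
      refine ⟨fun l => if l < t then ps l else ((a : K), v a / P), fun i => ?_⟩
      rw [gp_add]
      have e1 : gp n t (fun l => if l < t then ps l else ((a : K), v a / P)) i = gp n t ps i :=
        gp_congr (fun l hl => by simp [hl]) i
      rw [e1, hps]
      by_cases hin : i < n
      · unfold gp
        rw [if_pos hin, Finset.sum_range_one]
        simp only [add_zero, lt_irrefl, if_false]
        by_cases hia : i = a
        · subst hia
          rw [update_self, ← hP, div_mul_cancel₀ _ hP0, zero_add]
        · rw [update_of_ne hia]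
          have : ∏ j ∈ (Finset.range n).erase i, ((a : K) - (j : K)) = 0 := by
            refine Finset.prod_eq_zero (i := a) ?_ (by simp)
            exact Finset.mem_erase.2 ⟨fun h => hia h.symm, Finset.mem_range.2 (h2 a ha)⟩
          rw [this, mul_zero, add_zero]
      · have hia : i ≠ a := fun h => hin (h ▸ h2 a ha)
        rw [gp_of_le (by omega), update_of_ne hia, add_zero]

/-- Along a line in the parameter space the coordinates of the generator are polynomials. -/
theorem gp_line (n t : ℕ) (a b : ℕ → K × K) (i : ℕ) : ∃ P : K[X], ∀ x : K,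
    gp n t (fun l => (1 - x) • a l + x • b l) i = P.eval x := by
  by_cases hi : i < n
  · refine ⟨∑ l ∈ Finset.range t, ((1 - X) * C (a l).2 + X * C (b l).2) *
      ∏ j ∈ (Finset.range n).erase i, ((1 - X) * C (a l).1 + X * C (b l).1 - C (j : K)),
      fun x => ?_⟩
    unfold gp
    rw [if_pos hi, eval_finsetSum]
    refine Finset.sum_congr rfl (fun l _ => ?_)
    rw [eval_mul, eval_prod]
    simp only [Prod.fst_add, Prod.snd_add, Prod.smul_fst, Prod.smul_snd, smul_eq_mul, eval_mul,
      eval_add, eval_sub, eval_one, eval_X, eval_C]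
  · exact ⟨0, fun x => by rw [gp_of_le (by omega)]; simp⟩

/-- Finitely many formulas, each of which is nonzero at some value of the generator, are
simultaneously nonzero at some value. -/
theorem exists_common [Infinite K] (n t : ℕ) (F : List (Fm K ℕ))
    (hF : ∀ g ∈ F, ∃ ps, g.eval (gp n t ps) ≠ 0) : ∃ ps, ∀ g ∈ F, g.eval (gp n t ps) ≠ 0 := by
  induction F with
  | nil => exact ⟨fun _ => (0, 0), by simp⟩
  | cons g F ih =>
    obtain ⟨a, ha⟩ := ih (fun g hg => hF g (List.mem_cons_of_mem _ hg))
    obtain ⟨b, hb⟩ := hF g List.mem_cons_self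
    choose p hp using fun i => gp_line n t a b i
    have hfin : ∀ (h : Fm K ℕ) (x0 : K), h.eval (gp n t (fun l => (1 - x0) • a l + x0 • b l)) ≠ 0 →
        {x : K | h.eval (gp n t (fun l => (1 - x) • a l + x • b l)) = 0}.Finite := by
      intro h x0 hx0
      obtain ⟨P, hP⟩ := h.curve_poly p
      refine finite_zeros_of_poly P (t0 := x0) (fun x => ?_) hx0
      rw [← hP]
      congr 1
      funext i
      exact hp i x
    have e0 : (fun l => (1 - (0 : K)) • a l + (0 : K) • b l) = a := by funext l; simp
    have e1 : (fun l => (1 - (1 : K)) • a l + (1 : K) • b l) = b := by funext l; simp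
    have f1 := hfin g 1 (by rw [e1]; exact hb)
    have hall : ∀ G : List (Fm K ℕ), (∀ h ∈ G, h.eval (gp n t a) ≠ 0) →
        {x : K | ∃ h ∈ G, h.eval (gp n t (fun l => (1 - x) • a l + x • b l)) = 0}.Finite := by
      intro G
      induction G with
      | nil => intro _; simp
      | cons h G ihG =>
        intro hG
        refine ((hfin h 0 (by rw [e0]; exact hG h List.mem_cons_self)).union
          (ihG (fun h' hh' => hG h' (List.mem_cons_of_mem _ hh')))).subset (fun x hx => ?_)
        obtain ⟨h', hh', hx⟩ := hx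
        rcases List.mem_cons.1 hh' with rfl | hh'
        · exact Or.inl hx
        · exact Or.inr ⟨h', hh', hx⟩
    obtain ⟨x, hx⟩ := (f1.union (hall F ha)).toFinset.exists_notMem
    rw [Set.Finite.mem_toFinset, Set.mem_union, not_or] at hx
    refine ⟨fun l => (1 - x) • a l + x • b l, fun h hh => ?_⟩
    rcases List.mem_cons.1 hh with rfl | hh
    · exact hx.1
    · exact fun h0 => hx.2 ⟨h, hh, h0⟩

/-! ### The class of formulas -/

/-- Identifications of at most `k` variables at a time in `c`-thin formulas, with variables below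
`n`. -/
def ClsF (k c n : ℕ) (g : Fm K ℕ) : Prop :=
  ∃ (G : Fm K ℕ) (φ : ℕ → ℕ), G.ThinC c ∧
    (∀ v : ℕ, Set.encard {u : ℕ | φ u = v ∧ 0 < G.occ u} ≤ k) ∧ (∀ u, φ u < n) ∧ g = G.map φ

theorem ClsF.node {k c n : ℕ} {o : Op} {a b : Fm K ℕ} (h : ClsF k c n (.node o a b)) :
    ClsF k c n a ∧ ClsF k c n b := by
  obtain ⟨G, φ, h1, h2, h3, h4⟩ := h
  cases G with
  | leaf i P => simp [Fm.map] at h4
  | const x => simp [Fm.map] at h4
  | node o' a' b' =>
    simp only [Fm.map, Fm.node.injEq] at h4
    obtain ⟨_, rfl, rfl⟩ := h4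
    constructor
    · refine ⟨a', φ, fun g hg => ?_, fun v => ?_, h3, rfl⟩
      · refine (Set.encard_le_encard ?_).trans (h1 g ?_)
        · rintro u ⟨e1, e2⟩
          exact ⟨e1, by simp only [Fm.occ]; omega⟩
        · rw [Fm.subs]
          exact List.mem_cons_of_mem _ (List.mem_append_left _ hg)
      · refine (Set.encard_le_encard ?_).trans (h2 v)
        rintro u ⟨e1, e2⟩
        exact ⟨e1, by simp only [Fm.occ]; omega⟩
    · refine ⟨b', φ, fun g hg => ?_, fun v => ?_, h3, rfl⟩
      · refine (Set.encard_le_encard ?_).trans (h1 g ?_)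
        · rintro u ⟨e1, e2⟩
          exact ⟨e1, by simp only [Fm.occ]; omega⟩
        · rw [Fm.subs]
          exact List.mem_cons_of_mem _ (List.mem_append_right _ hg)
      · refine (Set.encard_le_encard ?_).trans (h2 v)
        rintro u ⟨e1, e2⟩
        exact ⟨e1, by simp only [Fm.occ]; omega⟩

theorem ClsF.of_mem_subs {k c n : ℕ} {g : Fm K ℕ} (h : ClsF k c n g) :
    ∀ g' ∈ g.subs, ClsF k c n g' := by
  induction g with
  | leaf i P => intro g' hg'; rw [Fm.subs, List.mem_singleton] at hg'; rw [hg']; exact h
  | const x => intro g' hg'; rw [Fm.subs, List.mem_singleton] at hg'; rw [hg']; exact h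
  | node o a b iha ihb =>
    intro g' hg'
    rw [Fm.subs, List.mem_cons, List.mem_append] at hg'
    rcases hg' with rfl | hg' | hg'
    · exact h
    · exact iha h.node.1 g' hg'
    · exact ihb h.node.2 g' hg'

theorem Fm.eval_const_of_strahler {g : Fm K ℕ} (h : g.strahler = 0) (q q' : ℕ → K) :
    g.eval q = g.eval q' := by
  induction g with
  | leaf i P => simp [Fm.strahler] at h
  | const x => rfl
  | node o a b iha ihb =>
    rw [Fm.strahler] at h
    split_ifs at h with h1
    have ha : a.strahler = 0 := by omega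
    have hb : b.strahler = 0 := by omega
    simp only [Fm.eval]
    rw [iha ha, ihb hb]

theorem Fm.strahler_node_le (o : Op) (a b : Fm K ℕ) :
    a.strahler ≤ (Fm.node o a b).strahler ∧ b.strahler ≤ (Fm.node o a b).strahler := by
  rw [Fm.strahler]
  split_ifs <;> omega

/-- One of the two children has a smaller Strahler number. -/
theorem Fm.strahler_node_lt {o : Op} {a b : Fm K ℕ} {h : ℕ}
    (hh : (Fm.node o a b).strahler ≤ h + 1) : a.strahler ≤ h ∨ b.strahler ≤ h := by
  rw [Fm.strahler] at hh
  split_ifs at hh with h1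
  · omega
  · rcases Nat.lt_trichotomy a.strahler b.strahler with h2 | h2 | h2
    · left; omega
    · left
      have : a.strahler = 0 := by
        by_contra h3
        exact h1 ⟨h2, h3⟩
      omega
    · right; omega

/-- The Strahler number is at most logarithmic in the number of leaves. -/
theorem Fm.two_pow_strahler_le (g : Fm K ℕ) (h : g.strahler ≠ 0) :
    2 ^ g.strahler ≤ 2 * g.leaves := by
  induction g with
  | leaf i P => simp [Fm.strahler, Fm.leaves]
  | const x => simp [Fm.strahler] at h
  | node o a b iha ihb =>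
    rw [Fm.strahler] at h ⊢
    rw [Fm.leaves]
    split_ifs at h ⊢ with h1
    · have h2 := iha h1.2
      have h3 := ihb (h1.1 ▸ h1.2)
      rw [← h1.1] at h3
      rw [pow_succ]
      omega
    · rcases le_total a.strahler b.strahler with h2 | h2
      · rw [max_eq_right h2] at h ⊢
        have := ihb h
        omega
      · rw [max_eq_left h2] at h ⊢
        have := iha h
        omega

theorem Fm.strahler_le_of_leaves {g : Fm K ℕ} {h : ℕ} (hg : g.leaves < 2 ^ h) :
    g.strahler ≤ h := by
  by_contra hcon
  push Not at hcon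
  have h1 := g.two_pow_strahler_le (by omega)
  have h2 : 2 ^ (h + 1) ≤ 2 ^ g.strahler := Nat.pow_le_pow_right (by norm_num) hcon
  rw [pow_succ] at h2
  omega

/-! ### The generator hits -/

theorem pathGood_of_small {A : Set ℕ} {ρ : ℕ → K} {h : ℕ} (g : Fm K ℕ) (hg : g.strahler ≤ h + 1)
    (hgood : ∀ g' ∈ g.subs, g'.strahler ≤ h → Good A ρ g') : PathGood A ρ g := by
  have hall : ∀ b : Fm K ℕ, b.strahler ≤ h → (∀ g' ∈ b.subs, g'.strahler ≤ h → Good A ρ g') →
      Good A ρ b ∧ AllGood A ρ b := by
    intro b
    induction b with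
    | leaf i P => intro h1 h2; exact ⟨h2 _ (Fm.self_mem_subs _) h1, trivial⟩
    | const x => intro h1 h2; exact ⟨h2 _ (Fm.self_mem_subs _) h1, trivial⟩
    | node o a b iha ihb =>
      intro h1 h2
      have h3 := Fm.strahler_node_le o a b
      have h4 := iha (h3.1.trans h1) (fun g' hg' => h2 g' (by
        rw [Fm.subs]
        exact List.mem_cons_of_mem _ (List.mem_append_left _ hg')))
      have h5 := ihb (h3.2.trans h1) (fun g' hg' => h2 g' (by
        rw [Fm.subs]
        exact List.mem_cons_of_mem _ (List.mem_append_right _ hg')))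
      exact ⟨h2 _ (Fm.self_mem_subs _) h1, h4.1, h5.1, h4.2, h5.2⟩
  induction g with
  | leaf i P => trivial
  | const x => trivial
  | node o a b iha ihb =>
    have h1 := Fm.strahler_node_le o a b
    have ga : ∀ g' ∈ a.subs, g'.strahler ≤ h → Good A ρ g' := fun g' hg' => hgood g' (by
      rw [Fm.subs]
      exact List.mem_cons_of_mem _ (List.mem_append_left _ hg'))
    have gb : ∀ g' ∈ b.subs, g'.strahler ≤ h → Good A ρ g' := fun g' hg' => hgood g' (by
      rw [Fm.subs]
      exact List.mem_cons_of_mem _ (List.mem_append_right _ hg'))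
    rcases Fm.strahler_node_lt hg with h2 | h2
    · exact Or.inr ⟨ihb (h1.2.trans hg) gb, hall a h2 ga⟩
    · exact Or.inl ⟨iha (h1.1.trans hg) ga, hall b h2 gb⟩

/-- **The generator hits all formulas of the class.** -/
theorem exists_hit [CharZero K] (k c n : ℕ) (h : ℕ) : ∀ g : Fm K ℕ, ClsF k c n g →
    g.strahler ≤ h → (∃ q : ℕ → K, (∀ i, i ∉ {i | i < n} → q i = 0) ∧ g.eval q ≠ 0) →
    ∃ ps, g.eval (gp n (locW k c * h) ps) ≠ 0 := by
  induction h with
  | zero =>
    rintro g - hg ⟨q, -, hq⟩
    refine ⟨fun _ => (0, 0), ?_⟩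
    rw [g.eval_const_of_strahler (by omega) _ q]
    exact hq
  | succ h ih =>
    intro g hcls hg hex
    classical
    set F : List (Fm K ℕ) := g.subs.filter (fun g' => decide (g'.strahler ≤ h ∧
      ∃ q : ℕ → K, (∀ i, i ∉ {i | i < n} → q i = 0) ∧ g'.eval q ≠ 0)) with hF
    obtain ⟨ps, hps⟩ := exists_common n (locW k c * h) F (fun g' hg' => by
      rw [hF, List.mem_filter, decide_eq_true_iff] at hg'
      exact ih g' (hcls.of_mem_subs g' hg'.1) hg'.2.1 hg'.2.2)
    set ρ : ℕ → K := gp n (locW k c * h) ps with hρ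
    have hρ0 : ∀ i, i ∉ {i | i < n} → ρ i = 0 := by
      intro i hi
      rw [Set.mem_ofPred_eq] at hi
      exact gp_of_le (by omega)
    have hgood : ∀ g' ∈ g.subs, g'.strahler ≤ h → Good {i | i < n} ρ g' := by
      intro g' hg' hs
      by_cases hex' : ∃ q : ℕ → K, (∀ i, i ∉ {i | i < n} → q i = 0) ∧ g'.eval q ≠ 0
      · right
        refine hps g' ?_
        rw [hF, List.mem_filter, decide_eq_true_iff]
        exact ⟨hg', hs, hex'⟩
      · left
        push Not at hex'
        exact fun q hq => hex' q (fun i hi => (hq i hi).trans (hρ0 i hi))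
    have hpath := pathGood_of_small g hg hgood
    obtain ⟨G, φ, h1, h2, h3, rfl⟩ := hcls
    obtain ⟨q, D, hD1, hD2, hD3, hD4⟩ := local_search_map k c G φ {i | i < n} ρ (fun v _ => h2 v)
      h1.ct hpath (by
        obtain ⟨q, hq1, hq2⟩ := hex
        exact ⟨q, fun i hi => (hq1 i hi).trans (hρ0 i hi).symm, hq2⟩)
    obtain ⟨ps', hps'⟩ := exists_gp n (locW k c) D (fun i => q i - ρ i) hD1 hD2
      (fun i hi => by rw [hD3 i hi, sub_self])
    refine ⟨fun l => if l < locW k c * h then ps l else ps' (l - locW k c * h), ?_⟩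
    have e1 : gp n (locW k c * (h + 1))
        (fun l => if l < locW k c * h then ps l else ps' (l - locW k c * h)) = q := by
      funext i
      rw [Nat.mul_succ, gp_add]
      have e2 : gp n (locW k c * h)
          (fun l => if l < locW k c * h then ps l else ps' (l - locW k c * h)) i = ρ i :=
        gp_congr (fun l hl => by simp [hl]) i
      have e3 : gp n (locW k c) (fun l => if locW k c * h + l < locW k c * h then
          ps (locW k c * h + l) else ps' (locW k c * h + l - locW k c * h)) i = q i - ρ i := by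
        rw [← hps' i]
        exact gp_congr (fun l hl => by simp) i
      rw [e2, e3]
      ring
    rw [e1]
    exact hD4

end Pool.Agent.RK
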