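import Mathlib
import Pool.Agent.Work.RK.Hit

/-!
# Explicit hitting sets for identifications of thin formulas
-/

set_option autoImplicit false

namespace Pool.Agent.RK

open Function Polynomial

variable {K : Type} [Field K]

theorem Fm.curve_poly_deg {ι : Type} (g : Fm K ι) (p : ι → K[X]) {m : ℕ}
    (hm : ∀ i, (p i).natDegree ≤ m) :
    ∃ P : K[X], P.natDegree ≤ g.deg * m ∧ ∀ t : K, g.eval (fun i => (p i).eval t) = P.eval t := by
  induction g with
  | leaf i P =>
    refine ⟨P.comp (p i), ?_, fun t => by simp only [Fm.eval, eval_comp]⟩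
    rw [Fm.deg, natDegree_comp]
    exact Nat.mul_le_mul_left _ (hm i)
  | const c => exact ⟨C c, by simp, fun t => by simp [Fm.eval]⟩
  | node o f g ihf ihg =>
    obtain ⟨P, hP1, hP⟩ := ihf
    obtain ⟨Q, hQ1, hQ⟩ := ihg
    have h1 : (Fm.node o f g).deg * m = f.deg * m + g.deg * m := by rw [Fm.deg, Nat.add_mul]
    rw [h1]
    cases o with
    | add =>
      refine ⟨P + Q, ?_, fun t => by simp [Fm.eval, Op.app, hP, hQ]⟩
      have := natDegree_add_le P Q
      omega
    | sub =>
      refine ⟨P - Q, ?_, fun t => by simp [Fm.eval, Op.app, hP, hQ]⟩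
      have := natDegree_sub_le P Q
      omega
    | mul =>
      refine ⟨P * Q, ?_, fun t => by simp [Fm.eval, Op.app, hP, hQ]⟩
      have := natDegree_mul_le (p := P) (q := Q)
      omega

theorem exists_nat_nonroot [CharZero K] {P : K[X]} (hP : P ≠ 0) {B : ℕ} (hB : P.natDegree ≤ B) :
    ∃ t : ℕ, t ≤ B ∧ P.eval (t : K) ≠ 0 := by
  classical
  by_contra hcon
  push Not at hcon
  apply hP
  refine eq_zero_of_natDegree_lt_card_of_eval_eq_zero' P
    ((Finset.range (B + 1)).image (fun i : ℕ => (i : K))) (fun x hx => ?_) ?_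
  · obtain ⟨i, hi, rfl⟩ := Finset.mem_image.1 hx
    rw [Finset.mem_range] at hi
    exact hcon i (by omega)
  · rw [Finset.card_image_of_injective _ Nat.cast_injective, Finset.card_range]
    omega

/-- The generator as a function of one parameter. -/
theorem gp_param (n t : ℕ) (ps : ℕ → K × K) (l : ℕ) {Y Z : K[X]}
    (h : (Y.natDegree ≤ 1 ∧ Z.natDegree ≤ 0) ∨ (Y.natDegree ≤ 0 ∧ Z.natDegree ≤ 1)) (i : ℕ) :
    ∃ P : K[X], P.natDegree ≤ n ∧
      ∀ x : K, gp n t (update ps l (Y.eval x, Z.eval x)) i = P.eval x := by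
  by_cases hi : i < n
  · refine ⟨∑ m ∈ Finset.range t, (if m = l then Z else C (ps m).2) *
      ∏ j ∈ (Finset.range n).erase i, ((if m = l then Y else C (ps m).1) - C (j : K)), ?_,
      fun x => ?_⟩
    · refine natDegree_sum_le_of_forall_le _ _ (fun m _ => ?_)
      refine (natDegree_mul_le).trans ?_
      have h1 : (∏ j ∈ (Finset.range n).erase i,
          ((if m = l then Y else C (ps m).1) - C (j : K))).natDegree ≤
          (n - 1) * Y.natDegree := by
        refine (natDegree_prod_le _ _).trans ?_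
        have h2 : ((Finset.range n).erase i).card = n - 1 := by
          rw [Finset.card_erase_of_mem (Finset.mem_range.2 hi), Finset.card_range]
        rw [← h2, ← smul_eq_mul]
        refine Finset.sum_le_card_nsmul _ _ _ (fun j _ => ?_)
        refine (natDegree_sub_le _ _).trans ?_
        rw [natDegree_C]
        split_ifs
        · simp
        · simp
      have h3 : (if m = l then Z else C (ps m).2).natDegree ≤ Z.natDegree := by
        split_ifs
        · exact le_refl _
        · simp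
      rcases h with ⟨h4, h5⟩ | ⟨h4, h5⟩
      · have h6 : (n - 1) * Y.natDegree ≤ (n - 1) * 1 := Nat.mul_le_mul_left _ h4
        omega
      · have h6 : (n - 1) * Y.natDegree ≤ (n - 1) * 0 := Nat.mul_le_mul_left _ h4
        omega
    · unfold gp
      rw [if_pos hi, eval_finsetSum]
      refine Finset.sum_congr rfl (fun m _ => ?_)
      rw [eval_mul, eval_prod]
      by_cases hm : m = l
      · subst hm
        simp only [update_self, if_true, eval_sub, eval_C]
      · simp only [update_of_ne hm, hm, if_false, eval_sub, eval_C]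
  · exact ⟨0, by simp, fun x => by rw [gp_of_le (by omega)]; simp⟩

/-- Rounding of the parameters. -/
theorem exists_round [CharZero K] (n t : ℕ) (g : Fm K ℕ) (m : ℕ) (ps : ℕ → K × K)
    (hps : g.eval (gp n t ps) ≠ 0) : ∃ ps' : ℕ → K × K,
      (∀ l < m, ∃ y z : ℕ, y ≤ g.deg * n ∧ z ≤ g.deg * n ∧ ps' l = ((y : K), (z : K))) ∧
      g.eval (gp n t ps') ≠ 0 := by
  have step : ∀ (ps : ℕ → K × K) (l : ℕ) (Y Z : K[X]) (x0 : K),
      ((Y.natDegree ≤ 1 ∧ Z.natDegree ≤ 0) ∨ (Y.natDegree ≤ 0 ∧ Z.natDegree ≤ 1)) →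
      g.eval (gp n t (update ps l (Y.eval x0, Z.eval x0))) ≠ 0 →
      ∃ x : ℕ, x ≤ g.deg * n ∧ g.eval (gp n t (update ps l (Y.eval (x : K), Z.eval (x : K)))) ≠ 0 := by
    intro ps l Y Z x0 h h0
    choose p hp1 hp2 using gp_param n t ps l h
    obtain ⟨P, hP1, hP2⟩ := g.curve_poly_deg p hp1
    have h3 : ∀ x : K, g.eval (gp n t (update ps l (Y.eval x, Z.eval x))) = P.eval x := by
      intro x
      rw [← hP2]
      congr 1
      funext i
      exact hp2 i x
    have hP0 : P ≠ 0 := by
      rintro rfl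
      rw [h3] at h0
      simp at h0
    obtain ⟨x, hx1, hx2⟩ := exists_nat_nonroot hP0 hP1
    exact ⟨x, hx1, by rw [h3]; exact hx2⟩
  induction m with
  | zero => exact ⟨ps, by simp, hps⟩
  | succ m ih =>
    obtain ⟨ps1, h1, h2⟩ := ih
    obtain ⟨y, hy1, hy2⟩ := step ps1 m X (C (ps1 m).2) (ps1 m).1
      (Or.inl ⟨natDegree_X_le, by simp⟩) (by simpa using h2)
    rw [eval_X, eval_C] at hy2
    obtain ⟨z, hz1, hz2⟩ := step (update ps1 m ((y : K), (ps1 m).2)) m (C (y : K)) X (ps1 m).2
      (Or.inr ⟨by simp, natDegree_X_le⟩) (by simpa using hy2)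
    rw [eval_X, eval_C, update_idem] at hz2
    refine ⟨update ps1 m ((y : K), (z : K)), fun l hl => ?_, hz2⟩
    by_cases hlm : l = m
    · subst hlm
      exact ⟨y, z, hy1, hz1, by rw [update_self]⟩
    · rw [update_of_ne hlm]
      exact h1 l (by omega)

theorem Fm.eval_poly {ι : Type} (q : ι → K) (g : Fm K ι) :
    MvPolynomial.eval q g.poly = g.eval q := by
  induction g with
  | leaf i P =>
    rw [Fm.poly, Fm.eval, Polynomial.aeval_def, Polynomial.hom_eval₂, MvPolynomial.eval_X]
    have : (MvPolynomial.eval q).comp (algebraMap K (MvPolynomial ι K)) = RingHom.id K := by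
      ext x
      simp [MvPolynomial.algebraMap_eq]
    rw [this]
    rfl
  | const c => simp [Fm.poly, Fm.eval]
  | node o a b iha ihb => cases o <;> simp [Fm.poly, Fm.eval, Op.app, iha, ihb]

theorem Fm.strahler_map {ι ι' : Type} (φ : ι' → ι) (g : Fm K ι') :
    (g.map φ).strahler = g.strahler := by
  induction g with
  | leaf i P => rfl
  | const c => rfl
  | node o a b iha ihb => simp only [Fm.map, Fm.strahler, iha, ihb]

theorem Fm.deg_map {ι ι' : Type} (φ : ι' → ι) (g : Fm K ι') : (g.map φ).deg = g.deg := by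
  induction g with
  | leaf i P => rfl
  | const c => rfl
  | node o a b iha ihb => simp only [Fm.map, Fm.deg, iha, ihb]

theorem gen_eq {n t : ℕ} (y z : ℕ → ℕ) (ps : ℕ → K × K)
    (h : ∀ l < t, ps l = ((y l : K), (z l : K))) (i : Fin n) :
    gp n t ps i = ((gen n t (fun l => y l) (fun l => z l) i : ℤ) : K) := by
  unfold gp gen
  rw [if_pos i.2, Int.cast_sum, ← Fin.sum_univ_eq_sum_range
    (fun l => (ps l).2 * ∏ j ∈ (Finset.range n).erase (i : ℕ), ((ps l).1 - (j : K))) t]
  refine Finset.sum_congr rfl (fun l _ => ?_)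
  have e : (Finset.range n).erase (i : ℕ) = (Finset.univ.erase i).image Fin.val := by
    ext j
    simp only [Finset.mem_erase, Finset.mem_range, Finset.mem_image, Finset.mem_univ, and_true]
    constructor
    · rintro ⟨h1, h2⟩
      exact ⟨⟨j, h2⟩, fun h3 => h1 (by rw [← h3]), rfl⟩
    · rintro ⟨j', h1, rfl⟩
      exact ⟨fun h3 => h1 (Fin.ext h3), j'.2⟩
  rw [h l l.2, e, Finset.prod_image (fun a _ b _ hab => Fin.ext hab)]
  push_cast
  rfl

theorem card_hset_le (n t B : ℕ) : (hset n t B).card ≤ (B + 1) ^ (2 * t) := by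
  unfold hset
  refine Finset.card_image_le.trans ?_
  rw [Finset.card_univ]
  simp only [Fintype.card_prod, Fintype.card_pi, Fintype.card_fin, Finset.prod_const,
    Finset.card_univ]
  rw [two_mul, pow_add]

/-- **Hitting sets.** -/
theorem hit_main [CharZero K] (k c n h D : ℕ) (G : Fm K ℕ) (φ : ℕ → Fin n)
    (h1 : G.strahler ≤ h ∨ G.leaves < 2 ^ h) (h2 : G.deg ≤ D) (h3 : G.ThinC c)
    (h4 : ∀ v : Fin n, Set.encard {u : ℕ | φ u = v ∧ 0 < G.occ u} ≤ k)
    (h5 : (G.map φ).poly ≠ 0) :
    ∃ x ∈ hset n (locW k c * h) (D * n),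
      MvPolynomial.eval (fun i => ((x i : ℤ) : K)) (G.map φ).poly ≠ 0 := by
  have hs : G.strahler ≤ h := h1.elim id Fm.strahler_le_of_leaves
  obtain ⟨q, hq⟩ : ∃ q : Fin n → K, MvPolynomial.eval q (G.map φ).poly ≠ 0 := by
    by_contra hcon
    push Not at hcon
    exact h5 (MvPolynomial.funext (fun q => by rw [hcon q, map_zero]))
  rw [Fm.eval_poly, Fm.eval_map] at hq
  set g : Fm K ℕ := G.map (fun u => (φ u : ℕ)) with hg
  have hcls : ClsF k c n g := by
    refine ⟨G, fun u => (φ u : ℕ), h3, fun v => ?_, fun u => (φ u).2, rfl⟩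
    by_cases hv : v < n
    · refine (Set.encard_le_encard ?_).trans (h4 ⟨v, hv⟩)
      rintro u ⟨e1, e2⟩
      exact ⟨Fin.ext e1, e2⟩
    · have : {u : ℕ | (φ u : ℕ) = v ∧ 0 < G.occ u} = ∅ := by
        ext u
        simp only [Set.mem_ofPred_eq, Set.mem_empty_iff_false, iff_false, not_and]
        intro e
        have := (φ u).2
        omega
      rw [this]
      simp
  obtain ⟨ps, hps⟩ := exists_hit k c n h g hcls (by rw [hg, Fm.strahler_map]; exact hs)
    ⟨fun i => if hi : i < n then q ⟨i, hi⟩ else 0, fun i hi => by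
      rw [Set.mem_ofPred_eq] at hi
      simp [hi], by
      rw [hg, Fm.eval_map]
      simpa using hq⟩
  obtain ⟨ps', hr1, hr2⟩ := exists_round n (locW k c * h) g (locW k c * h) ps hps
  have hB : g.deg * n ≤ D * n := by
    rw [hg, Fm.deg_map]
    exact Nat.mul_le_mul_right _ h2
  choose! y z hy hz hyz using hr1
  refine ⟨gen n (locW k c * h) (fun l => y l) (fun l => z l), ?_, ?_⟩
  · unfold hset
    rw [Finset.mem_image]
    refine ⟨(fun l => ⟨y l, ?_⟩, fun l => ⟨z l, ?_⟩), Finset.mem_univ _, rfl⟩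
    · have := hy l l.2
      omega
    · have := hz l l.2
      omega
  · rw [Fm.eval_poly, Fm.eval_map]
    have h6 : (fun u => ((gen n (locW k c * h) (fun l => y l) (fun l => z l) (φ u) : ℤ) : K)) =
        fun u => gp n (locW k c * h) ps' (φ u) := by
      funext u
      rw [gen_eq y z ps' hyz (φ u)]
    rw [h6]
    rw [hg, Fm.eval_map] at hr2
    exact hr2

end Pool.Agent.RK
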